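import Pool.Agent.U26Z.NA.Pr
import Pool.Agent.U26Z.NS.As

set_option autoImplicit false

/-!
# All times of a noise dynamics simultaneously
-/

namespace Pool.Agent.U26Z.NA

open Finset Filter Topology MeasureTheory ProbabilityTheory
open Pool.Agent.U26Z.NL (EE cm lamT noisy TF cm_congr cm_mul cm_one cm_prime)
open Pool.Agent.U26Z.NP (rt rt_pow rt_log rt_tend cast_tend)
open Pool.Agent.U26Z.NS (cw pow_ev sum_recip ci ci_eq Dn bdiff Dn_le)

/-- completely multiplicative with values `±1` -/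
def CM (g : ℕ → ℤ) : Prop :=
  g 1 = 1 ∧ (∀ m n, 1 ≤ m → 1 ≤ n → g (m * n) = g m * g n) ∧ ∀ n, 1 ≤ n → g n = 1 ∨ g n = -1

theorem CM_cm {g : ℕ → ℤ} (hg : CM g) : ∀ n : ℕ, 1 ≤ n → g n = cm g n := by
  intro n
  induction n using Nat.strong_induction_on with
  | _ n ih =>
    intro hn
    rcases Nat.eq_or_lt_of_le hn with h | h
    · rw [← h, hg.1, cm_one]
    · have hp := Nat.minFac_prime (show n ≠ 1 by omega)
      obtain ⟨m, hm⟩ := Nat.minFac_dvd n
      have hm0 : 1 ≤ m := by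
        rcases Nat.eq_zero_or_pos m with h1 | h1
        · rw [h1, mul_zero] at hm; omega
        · exact h1
      have hmn : m < n := by
        have h2 := hp.two_le
        have h3 : 2 * m ≤ n.minFac * m := Nat.mul_le_mul_right m h2
        omega
      have h4 : g n = g (n.minFac * m) := by rw [← hm]
      have h5 : cm g n = cm g (n.minFac * m) := by rw [← hm]
      rw [h4, h5, hg.2.1 _ _ hp.one_lt.le hm0, cm_mul g hp.ne_zero (by omega), cm_prime g hp,
        ih m hmn hm0]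

variable {Ω : Type} [MeasurableSpace Ω]

/-- the sign at `p` changes in the time interval `[s, t]` -/
def jmp (X : ℕ → ℝ → Ω → ℤ) (p : ℕ) (s t : ℝ) : Set Ω := {ω | ∃ u ∈ Set.Icc s t, X p u ω ≠ X p s ω}

/-- the property at one precision -/
def Good (k : ℕ) (ε c : ℝ) (X : ℕ → ℝ → Ω → ℤ) (ω : Ω) (N : ℕ) : Prop :=
  ∀ t : ℝ, 0 ≤ t → t ≤ 1 → ∀ g : ℕ → ℤ, CM g → (∀ p : ℕ, p.Prime → (N : ℝ) ^ c < p → g p = -X p t ω) →
  ∀ x H : ℕ, x + H ≤ N → (N : ℝ) ^ ε ≤ H → ∀ a b : Fin k → ℕ,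
    (∀ i, 1 ≤ a i ∧ (a i : ℝ) ≤ (N : ℝ) ^ c ∧ (b i : ℝ) ≤ (N : ℝ) ^ c) →
    (∀ i j, i ≠ j → a i * b j ≠ a j * b i) →
    |ci (fun _ => 1) g a b x H| ≤ ε * H

/-- the primes with random signs -/
def FF (y₁ M : ℕ) : Finset ℕ := (Icc 1 M).filter (fun p => p.Prime ∧ y₁ < p)

/-- the correlation of a function with given signs at the small primes -/
theorem ci_adv {g : ℕ → ℤ} (hg : CM g) {X : ℕ → ℝ → Ω → ℤ} (hX : ∀ p t ω, X p t ω = 1 ∨ X p t ω = -1)
    {t : ℝ} {ω : Ω} {y₁ M : ℕ} (hgp : ∀ p : ℕ, p.Prime → y₁ < p → g p = -X p t ω) {k : ℕ} {a b : Fin k → ℕ}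
    (ha : ∀ i, 1 ≤ a i) {x H : ℕ} (hM : ∀ i, a i * H + (a i * x + b i) ≤ M) :
    ∃ A : Finset ℕ, A ⊆ range (y₁ + 1) ∧ ci (fun _ => 1) g a b x H =
      cw (fun _ => 1) (lamT (A ∪ TF (fun p => X p t) (FF y₁ M) ω)) a (fun i => a i * x + b i) H := by
  refine ⟨(range (y₁ + 1)).filter (fun p => g p = 1), Finset.filter_subset _ _, ?_⟩
  rw [ci_eq]
  unfold cw
  refine Finset.sum_congr rfl fun n hn => ?_
  rw [mem_Icc] at hn
  congr 1
  refine Finset.prod_congr rfl fun i _ => ?_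
  congr 1
  have h5 : 0 < a i * n := Nat.mul_pos (ha i) hn.1
  rw [CM_cm hg _ (by omega)]
  unfold lamT
  apply cm_congr
  intro p hp hpn
  have h6 := Nat.le_of_dvd (by omega) hpn
  have h7 : a i * n ≤ a i * H := Nat.mul_le_mul_left _ hn.2
  have h8 := hM i
  have h6' : p ≤ a i * n + (a i * x + b i) := h6
  have hpM : p ≤ M := by omega
  have hgp1 : g p = 1 ∨ g p = -1 := hg.2.2 p hp.one_lt.le
  rcases le_or_gt p y₁ with h9 | h9
  · have h10 : p ∈ (range (y₁ + 1)).filter (fun p => g p = 1) ∪ TF (fun p => X p t) (FF y₁ M) ω ↔ g p = 1 := by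
      rw [mem_union]
      constructor
      · rintro (h | h)
        · exact (mem_filter.1 h).2
        · unfold TF FF at h
          rw [mem_filter, mem_filter] at h
          omega
      · intro h
        exact Or.inl (mem_filter.2 ⟨mem_range.2 (by omega), h⟩)
    by_cases h11 : g p = 1
    · rw [if_pos (h10.2 h11), h11]
    · rw [if_neg (fun h => h11 (h10.1 h)), hgp1.resolve_left h11]
  · have h10 : p ∈ (range (y₁ + 1)).filter (fun p => g p = 1) ∪ TF (fun p => X p t) (FF y₁ M) ω ↔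
        X p t ω = -1 := by
      rw [mem_union]
      constructor
      · rintro (h | h)
        · have := mem_range.1 (mem_filter.1 h).1
          omega
        · unfold TF at h
          exact (mem_filter.1 h).2
      · intro h
        refine Or.inr ?_
        unfold TF FF
        rw [mem_filter, mem_filter, mem_Icc]
        exact ⟨⟨⟨hp.one_lt.le, hpM⟩, hp, h9⟩, h⟩
    rw [hgp p hp h9]
    rcases hX p t ω with h11 | h11
    · rw [if_neg (fun h => by have := h10.1 h; omega), h11]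
    · rw [if_pos (h10.2 h11), h11]; norm_num

/-- a change of the signs at one prime -/
theorem cw_near {k : ℕ} {a b : Fin k → ℕ} {w : ℕ → ℝ} (hw : ∀ n, |w n| ≤ 1) (ha : ∀ i, 1 ≤ a i) (H q : ℕ)
    (T T' : Finset ℕ) (h : insert q T = insert q T') :
    |cw w (lamT T) a b H - cw w (lamT T') a b H| ≤ 4 * Dn a b H q := by
  have h1 := bdiff (a := a) (b := b) hw ha H q T
  have h2 := bdiff (a := a) (b := b) hw ha H q T'
  rw [h] at h1
  rw [abs_sub_comm] at h1
  calc |cw w (lamT T) a b H - cw w (lamT T') a b H| ≤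
      |cw w (lamT T) a b H - cw w (lamT (insert q T')) a b H| +
      |cw w (lamT (insert q T')) a b H - cw w (lamT T') a b H| := abs_sub_le _ _ _
    _ ≤ _ := by linarith

theorem TF_near {X : ℕ → ℝ → Ω → ℤ} {s t : ℝ} {ω : Ω} (F : Finset ℕ) (q : ℕ)
    (h : ∀ p ∈ F, p ≠ q → X p t ω = X p s ω) :
    insert q (TF (fun p => X p t) F ω) = insert q (TF (fun p => X p s) F ω) := by
  ext p
  simp only [mem_insert]
  by_cases hq : p = q
  · simp [hq]
  · simp only [hq, false_or]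
    unfold TF
    rw [mem_filter, mem_filter]
    constructor
    · rintro ⟨h1, h2⟩
      exact ⟨h1, (h p h1 hq).symm.trans h2⟩
    · rintro ⟨h1, h2⟩
      exact ⟨h1, (h p h1 hq).trans h2⟩

end Pool.Agent.U26Z.NA
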