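import Pool.Agent.U26Z.NS.Cb

set_option autoImplicit false

/-!
# The cube estimate: arbitrary noise levels in `[0, 1]`, arbitrary signs at the small primes
-/

namespace Pool.Agent.U26Z.NA

open Finset
open Pool.Agent.U26Z.NL (EE cm lamT nf BD NN cnt cop cntN L_ne NN_ne smallMean)
open Pool.Agent.U26Z.NS (cw cw_eq Dn bdiff val_one Dn_le Dn_sum)

variable {k : ℕ} {a b : Fin k → ℕ} {w : ℕ → ℝ}

/-- the noise level, up to a global change of the sign -/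
noncomputable def dd (δ : ℕ → ℝ) (p : ℕ) : ℝ := min (δ p) (1 - δ p)

theorem dd_nonneg {δ : ℕ → ℝ} (h0 : ∀ p, 0 ≤ δ p) (h1 : ∀ p, δ p ≤ 1) (p : ℕ) : 0 ≤ dd δ p :=
  le_min (h0 p) (by linarith [h1 p])

theorem dd_le {δ : ℕ → ℝ} (p : ℕ) : dd δ p ≤ 1 / 2 := by
  unfold dd
  rcases le_total (δ p) (1 - δ p) with h | h
  · rw [min_eq_left h]; linarith
  · rw [min_eq_right h]; linarith

theorem nf_abs (δ : ℕ → ℝ) (p v : ℕ) : |nf (δ p) v| ≤ nf (dd δ p) v := by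
  unfold nf dd
  rcases neg_one_pow_eq_or ℝ v with h | h
  · rw [h]
    have e1 : 1 - δ p + δ p * 1 = 1 := by ring
    have e2 : 1 - min (δ p) (1 - δ p) + min (δ p) (1 - δ p) * 1 = 1 := by ring
    rw [e1, e2, abs_one]
  · rw [h]
    rcases le_total (δ p) (1 - δ p) with h2 | h2
    · rw [min_eq_left h2, abs_of_nonneg (by linarith)]
    · rw [min_eq_right h2, abs_of_nonpos (by linarith)]
      linarith

/-- the conditional mean -/
theorem condMean (δ : ℕ → ℝ) (hw : ∀ n, |w n| ≤ 1)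
    (ha : ∀ i, 1 ≤ a i) (H : ℕ) (T₁ F : Finset ℕ) (hd : Disjoint T₁ F) :
    |EE δ F (fun T => cw w (lamT (T₁ ∪ T)) a b H)| ≤
      ∑ n ∈ Icc 1 H, ∏ p ∈ F, nf (dd δ p) ((NN a b n).factorization p) := by
  have h2 : EE δ F (fun T => cw w (lamT (T₁ ∪ T)) a b H) =
      ∑ n ∈ Icc 1 H, w n * (((cm (fun _ => -1) (NN a b n) : ℤ) : ℝ) *
        (∏ p ∈ T₁, (-1 : ℝ) ^ (NN a b n).factorization p)) *
        ∏ p ∈ F, nf (δ p) ((NN a b n).factorization p) := by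
    have h3 : ∀ T, T ⊆ F → cw w (lamT (T₁ ∪ T)) a b H =
        ∑ n ∈ Icc 1 H, w n * (((cm (fun _ => -1) (NN a b n) : ℤ) : ℝ) *
        (∏ p ∈ T₁, (-1 : ℝ) ^ (NN a b n).factorization p)) *
        ∏ p ∈ T, (-1 : ℝ) ^ (NN a b n).factorization p := by
      intro T hT
      rw [cw_eq w ha]
      refine Finset.sum_congr rfl fun n _ => ?_
      rw [Finset.prod_union (Finset.disjoint_of_subset_right hT hd)]
      ring
    have h4 : EE δ F (fun T => cw w (lamT (T₁ ∪ T)) a b H) =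
        EE δ F (fun T => ∑ n ∈ Icc 1 H, w n * (((cm (fun _ => -1) (NN a b n) : ℤ) : ℝ) *
        (∏ p ∈ T₁, (-1 : ℝ) ^ (NN a b n).factorization p)) *
        ∏ p ∈ T, (-1 : ℝ) ^ (NN a b n).factorization p) := by
      unfold EE
      refine Finset.sum_congr rfl fun T hT => ?_
      beta_reduce
      rw [h3 T (Finset.mem_powerset.1 hT)]
    rw [h4, Pool.Agent.U26Z.NL.EE_sum]
    refine Finset.sum_congr rfl fun n _ => ?_
    rw [Pool.Agent.U26Z.NL.EE_smul, Pool.Agent.U26Z.NL.EE_prod]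
    rfl
  rw [h2]
  refine (Finset.abs_sum_le_sum_abs _ _).trans (Finset.sum_le_sum fun n _ => ?_)
  rw [abs_mul, abs_mul, abs_mul, Pool.Agent.U26Z.NL.lam_abs', Pool.Agent.U26Z.NL.sgn_abs,
    mul_one, mul_one, Finset.abs_prod]
  have h6 : ∏ p ∈ F, |nf (δ p) ((NN a b n).factorization p)| ≤
      ∏ p ∈ F, nf (dd δ p) ((NN a b n).factorization p) :=
    Finset.prod_le_prod (fun p _ => abs_nonneg _) (fun p _ => nf_abs δ p _)
  have h7 : 0 ≤ ∏ p ∈ F, |nf (δ p) ((NN a b n).factorization p)| := Finset.prod_nonneg fun p _ => abs_nonneg _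
  calc |w n| * _ ≤ 1 * _ := mul_le_mul_of_nonneg_right (hw n) h7
    _ ≤ _ := by rw [one_mul]; exact h6

/-- **the main estimate on the cube** -/
theorem cube (δ : ℕ → ℝ) (h0 : ∀ p, 0 ≤ δ p) (h1' : ∀ p, δ p ≤ 1) (hk : 0 < k) (hw : ∀ n, |w n| ≤ 1)
    (ha : ∀ i, 1 ≤ a i) {H y z E : ℕ} (hay : ∀ i, a i ≤ y)
    (hab : ∀ i j, i ≠ j → (a i * b j : ℤ) - a j * b i ≠ 0 ∧ |(a i * b j : ℤ) - a j * b i| ≤ y)
    (hy1 : 1 ≤ y) (hyH : y ≤ H) (hH : 2 ≤ H) (hz : 1 ≤ z) (hzH : z ^ 3 ≤ H)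
    (hU : ∀ i, a i * H + b i ≤ H ^ E) {M : ℝ}
    (hM : M = ∑ p ∈ (Icc 1 z).filter (fun p => p.Prime ∧ y < p), dd δ p / p) (hM1 : 1 ≤ M)
    {ε : ℝ} (hε : 0 < ε) (hsm : 1 / y + 22 / M ≤ ε / 2) {y₁ : ℕ} (hy₁ : y₁ ≤ y) (A : Finset ℕ)
    (hA : ∀ p ∈ A, p ≤ y₁) :
    EE δ ((Icc 1 (H ^ E)).filter (fun p => p.Prime ∧ y₁ < p))
      (fun T => if ε * H ≤ |cw w (lamT (A ∪ T)) a b H| then 1 else 0) ≤
      2 * Real.exp (-(ε ^ 2 / (64 * k ^ 2 * (2 + E)) * y)) := by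
  classical
  have hH0 : (0 : ℝ) < H := by exact_mod_cast (by omega : 0 < H)
  have hy0 : (0 : ℝ) < y := by exact_mod_cast hy1
  have hyH' : (y : ℝ) ≤ H := by exact_mod_cast hyH
  have hk0 : (0 : ℝ) < k := by exact_mod_cast hk
  have hE1 : 1 ≤ E := by
    rcases Nat.eq_zero_or_pos E with h | h
    · have h2 := hU ⟨0, hk⟩
      have h3 : H ≤ a ⟨0, hk⟩ * H := Nat.le_mul_of_pos_left H (ha _)
      rw [h, pow_zero] at h2
      omega
    · exact h
  obtain ⟨F₁, hF₁⟩ : ∃ F₁, F₁ = (Icc 1 (H ^ E)).filter (fun p => p.Prime ∧ y₁ < p ∧ p ≤ y) := ⟨_, rfl⟩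
  obtain ⟨F₂, hF₂⟩ : ∃ F₂, F₂ = (Icc 1 (H ^ E)).filter (fun p => p.Prime ∧ y < p) := ⟨_, rfl⟩
  have hU' : (Icc 1 (H ^ E)).filter (fun p => p.Prime ∧ y₁ < p) = F₁ ∪ F₂ := by
    rw [hF₁, hF₂]
    ext p
    simp only [mem_filter, mem_union]
    constructor
    · rintro ⟨h2, h3, h5⟩
      rcases le_or_gt p y with h4 | h4
      · exact Or.inl ⟨h2, h3, h5, h4⟩
      · exact Or.inr ⟨h2, h3, h4⟩
    · rintro (⟨h2, h3, h5, h4⟩ | ⟨h2, h3, h4⟩)
      · exact ⟨h2, h3, h5⟩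
      · exact ⟨h2, h3, lt_of_le_of_lt hy₁ h4⟩
  have hdis : Disjoint F₁ F₂ := by
    rw [Finset.disjoint_left, hF₁, hF₂]
    intro p hp hp'
    rw [mem_filter] at hp hp'
    omega
  have hmF₂ : ∀ p ∈ F₂, p.Prime ∧ y < p := fun p hp => by
    rw [hF₂, mem_filter] at hp
    exact hp.2
  rw [hU']
  refine Pool.Agent.U26Z.NL.EE_union h0 h1' F₁ hdis _ fun T₁ hT₁ => ?_
  simp only [← Finset.union_assoc]
  have hdisA : Disjoint (A ∪ T₁) F₂ := by
    rw [Finset.disjoint_union_left]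
    refine ⟨?_, Finset.disjoint_of_subset_left hT₁ hdis⟩
    rw [Finset.disjoint_left]
    intro p hp hp'
    rw [hF₂, mem_filter] at hp'
    have := hA p hp
    omega
  obtain ⟨V, hV⟩ : ∃ V : ℝ, V = 8 * k ^ 2 * (2 + E) * H ^ 2 / y := ⟨_, rfl⟩
  have hV0 : 0 < V := by rw [hV]; positivity
  have hbd : BD (fun p => 2 * (Dn a b H p : ℝ)) F₂ (fun T => cw w (lamT (A ∪ T₁ ∪ T)) a b H) := by
    intro p hp T _
    have h3 := bdiff (a := a) (b := b) hw ha H p (A ∪ T₁ ∪ T)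
    simp only [Finset.union_insert]
    exact h3
  have hcV : ∑ p ∈ F₂, (2 * (Dn a b H p : ℝ)) ^ 2 ≤ V := by
    have hs : ∀ p ∈ F₂.filter (fun p => p ≤ H), (2 * (Dn a b H p : ℝ)) ^ 2 ≤
        8 * k ^ 2 * H ^ 2 * (1 / (p : ℝ) ^ 2) + 8 * k ^ 2 := by
      intro p hp
      rw [mem_filter] at hp
      have h2 := hmF₂ p hp.1
      have h3 := Dn_le (b := b) (H := H) ha h2.1 (fun i => lt_of_le_of_lt (hay i) h2.2)
      have h4 : (2 * (Dn a b H p : ℝ)) ^ 2 ≤ (2 * (k * ((H : ℝ) / p + 1))) ^ 2 :=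
        pow_le_pow_left₀ (by positivity) (by linarith) 2
      have h5 : ((H : ℝ) / p + 1) ^ 2 ≤ 2 * (H ^ 2 * (1 / (p : ℝ) ^ 2)) + 2 := by
        have h4 : (H : ℝ) ^ 2 * (1 / (p : ℝ) ^ 2) = ((H : ℝ) / p) ^ 2 := by
          rw [div_pow]; ring
        rw [h4]
        nlinarith [sq_nonneg ((H : ℝ) / p - 1)]
      have h6 := mul_le_mul_of_nonneg_left h5 (show (0 : ℝ) ≤ 4 * k ^ 2 by positivity)
      calc _ ≤ _ := h4
        _ = 4 * k ^ 2 * ((H : ℝ) / p + 1) ^ 2 := by ring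
        _ ≤ _ := h6
        _ = _ := by ring
    have hb' : ∀ p ∈ F₂.filter (fun p => ¬ p ≤ H), (2 * (Dn a b H p : ℝ)) ^ 2 ≤
        8 * k * (Dn a b H p : ℝ) := by
      intro p hp
      rw [mem_filter, not_le] at hp
      have h2 := hmF₂ p hp.1
      have hp0 : (0 : ℝ) < p := by exact_mod_cast h2.1.pos
      have h3 := Dn_le (b := b) (H := H) ha h2.1 (fun i => lt_of_le_of_lt (hay i) h2.2)
      have h4 : (H : ℝ) / p ≤ 1 := by
        rw [div_le_one hp0]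
        exact_mod_cast hp.2.le
      have h5 : (Dn a b H p : ℝ) ≤ 2 * k := by nlinarith
      have h6 : (0 : ℝ) ≤ Dn a b H p := Nat.cast_nonneg _
      nlinarith
    have hS1 : ∑ p ∈ F₂.filter (fun p => p ≤ H), (2 * (Dn a b H p : ℝ)) ^ 2 ≤
        8 * (k : ℝ) ^ 2 * (H : ℝ) ^ 2 * (1 / (y : ℝ)) + 8 * (k : ℝ) ^ 2 * (H : ℝ) := by
      refine (Finset.sum_le_sum hs).trans ?_
      rw [Finset.sum_add_distrib, ← Finset.mul_sum, Finset.sum_const, nsmul_eq_mul]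
      apply add_le_add
      · apply mul_le_mul_of_nonneg_left _ (by positivity)
        exact Pool.Agent.U26Z.NL.sum_sq_le hy1 _ (fun p hp => (hmF₂ p (mem_filter.1 hp).1).2)
      · rw [mul_comm]
        apply mul_le_mul_of_nonneg_left _ (by positivity)
        have h2 : (F₂.filter (fun p => p ≤ H)).card ≤ H := by
          have h3 : F₂.filter (fun p => p ≤ H) ⊆ Icc 1 H := by
            intro p hp
            rw [mem_filter] at hp
            rw [mem_Icc]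
            exact ⟨(hmF₂ p hp.1).1.one_lt.le, hp.2⟩
          have := Finset.card_le_card h3
          simpa using this
        exact_mod_cast h2
    have hS2 : ∑ p ∈ F₂.filter (fun p => ¬ p ≤ H), (2 * (Dn a b H p : ℝ)) ^ 2 ≤
        8 * (k : ℝ) ^ 2 * (E : ℝ) * (H : ℝ) := by
      refine (Finset.sum_le_sum hb').trans ?_
      rw [← Finset.mul_sum]
      have h2 := Dn_sum ha hH hU (F₂.filter (fun p => ¬ p ≤ H)) (fun p hp => by
        rw [mem_filter, not_le] at hp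
        exact ⟨(hmF₂ p hp.1).1, hp.2⟩)
      have h3 : ∑ p ∈ F₂.filter (fun p => ¬ p ≤ H), (Dn a b H p : ℝ) ≤ H * (k * E) := by
        exact_mod_cast h2
      calc _ ≤ 8 * (k : ℝ) * (H * (k * E)) := mul_le_mul_of_nonneg_left h3 (by positivity)
        _ = _ := by ring
    rw [← Finset.sum_filter_add_sum_filter_not F₂ (fun p => p ≤ H)]
    have h2 : (H : ℝ) ≤ H ^ 2 / y := by
      rw [le_div_iff₀ hy0]
      nlinarith
    have h3 : 8 * (k : ℝ) ^ 2 * H ≤ 8 * k ^ 2 * (H ^ 2 / y) := mul_le_mul_of_nonneg_left h2 (by positivity)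
    have h4 : 8 * (k : ℝ) ^ 2 * E * H ≤ 8 * k ^ 2 * E * (H ^ 2 / y) :=
      mul_le_mul_of_nonneg_left h2 (by positivity)
    calc _ ≤ (8 * (k : ℝ) ^ 2 * H ^ 2 * (1 / y) + 8 * k ^ 2 * H) + 8 * k ^ 2 * E * H := add_le_add hS1 hS2
      _ ≤ (8 * (k : ℝ) ^ 2 * H ^ 2 * (1 / y) + 8 * k ^ 2 * (H ^ 2 / y)) + 8 * k ^ 2 * E * (H ^ 2 / y) := by
          linarith
      _ = V := by rw [hV]; ring
  have hE : |EE δ F₂ (fun T => cw w (lamT (A ∪ T₁ ∪ T)) a b H)| ≤ ε * H / 2 := by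
    refine (condMean δ hw ha H (A ∪ T₁) F₂ hdisA).trans ?_
    have h2 : ∑ n ∈ Icc 1 H, ∏ p ∈ F₂, nf (dd δ p) ((NN a b n).factorization p) ≤
        H * (1 / y + 22 / M) := by
      refine smallMean (dd δ) (dd_nonneg h0 h1') dd_le (a := a ⟨0, hk⟩) (b ⟨0, hk⟩) H y z (ha _) (hay _)
        ((Icc 1 z).filter (fun p => p.Prime ∧ y < p)) ?_ hz hzH hM hM1
        (fun n => ∏ p ∈ F₂, nf (dd δ p) ((NN a b n).factorization p)) ?_ ?_
      · intro p hp
        rw [mem_filter, mem_Icc] at hp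
        exact ⟨hp.2.1, hp.2.2, hp.1.2⟩
      · intro n _
        exact Finset.prod_le_one (fun p _ => Pool.Agent.U26Z.NL.nf_nonneg (dd_nonneg h0 h1' p) (dd_le p) _)
          (fun p _ => Pool.Agent.U26Z.NL.nf_le (dd_nonneg h0 h1' p) _)
      · intro n hn h3
        rw [mem_Icc] at hn
        obtain ⟨Q, hQ⟩ : ∃ Q, Q = ((Icc 1 z).filter (fun p => p.Prime ∧ y < p)).filter
          (fun p => p ∣ a ⟨0, hk⟩ * n + b ⟨0, hk⟩) := ⟨_, rfl⟩
        rw [← hQ]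
        have hQF : Q ⊆ F₂ := by
          intro p hp
          rw [hQ, mem_filter, mem_filter, mem_Icc] at hp
          rw [hF₂, mem_filter, mem_Icc]
          refine ⟨⟨hp.1.1.1, ?_⟩, hp.1.2⟩
          have h4 : z ≤ z ^ 3 := Nat.le_self_pow (by norm_num) z
          have h5 : H ≤ H ^ E := Nat.le_self_pow (by omega) H
          omega
        have h4 : ∏ p ∈ F₂, nf (dd δ p) ((NN a b n).factorization p) ≤
            ∏ p ∈ Q, nf (dd δ p) ((NN a b n).factorization p) := by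
          rw [← Finset.prod_sdiff hQF]
          have h5 : ∏ p ∈ F₂ \ Q, nf (dd δ p) ((NN a b n).factorization p) ≤ 1 :=
            Finset.prod_le_one (fun p _ => Pool.Agent.U26Z.NL.nf_nonneg (dd_nonneg h0 h1' p) (dd_le p) _)
              (fun p _ => Pool.Agent.U26Z.NL.nf_le (dd_nonneg h0 h1' p) _)
          have h6 : 0 ≤ ∏ p ∈ Q, nf (dd δ p) ((NN a b n).factorization p) :=
            Finset.prod_nonneg fun p _ => Pool.Agent.U26Z.NL.nf_nonneg (dd_nonneg h0 h1' p) (dd_le p) _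
          nlinarith
        refine h4.trans (le_of_eq ?_)
        refine Finset.prod_congr rfl fun p hp => ?_
        have hp' := hp
        rw [hQ, mem_filter, mem_filter] at hp'
        have h5 : (NN a b n).factorization p = 1 := by
          refine val_one ha hab hn.1 hp'.1.2.1 hp'.1.2.2 ⟨0, hk⟩ hp'.2 (h3 p ?_)
          rw [mem_filter]
          exact hp'.1
        rw [h5, Pool.Agent.U26Z.NL.nf_one]
    refine h2.trans ?_
    have h3 := mul_le_mul_of_nonneg_left hsm hH0.le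
    linarith
  have h2 := Pool.Agent.U26Z.NL.tail2 h0 h1' (fun p => 2 * (Dn a b H p : ℝ)) F₂ _ hbd hV0 hcV
    (show 0 ≤ ε * H / 2 by positivity) hE
  have h3 : 2 * (ε * H / 2) = ε * H := by ring
  rw [h3] at h2
  refine h2.trans (le_of_eq ?_)
  congr 3
  rw [hV]
  field_simp
  ring

end Pool.Agent.U26Z.NA
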