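import Pool.Agent.U26Z.NA.Thr

set_option autoImplicit false

/-!
# The path from the Liouville function to `1`
-/

namespace Pool.Agent.U26Z.NA

open Finset Filter Topology MeasureTheory ProbabilityTheory
open Pool.Agent.U26Z.NL (cm cm_mul cm_one cm_prime cm_abs)
open Pool.Agent.U26Z.NS (ci pow_ev)

variable {Ω : Type} [MeasurableSpace Ω] {μ : Measure Ω} [IsProbabilityMeasure μ] {U : ℕ → Ω → ℝ}

/-- the proportion of the first `n` primes with a threshold below `t` -/
noncomputable def prop (U : ℕ → Ω → ℝ) (ω : Ω) (t : ℝ) (n : ℕ) : ℝ :=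
  (((range n).filter (fun j => U (Nat.nth Nat.Prime j) ω < t)).card : ℝ) / n

omit [MeasurableSpace Ω] in
theorem prop_mono (U : ℕ → Ω → ℝ) (ω : Ω) {s t : ℝ} (h : s ≤ t) (n : ℕ) : prop U ω s n ≤ prop U ω t n := by
  unfold prop
  apply div_le_div_of_nonneg_right _ (Nat.cast_nonneg n)
  have : (range n).filter (fun j => U (Nat.nth Nat.Prime j) ω < s) ⊆
      (range n).filter (fun j => U (Nat.nth Nat.Prime j) ω < t) := by
    intro j hj
    rw [mem_filter] at hj ⊢
    exact ⟨hj.1, lt_of_lt_of_le hj.2 h⟩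
  exact_mod_cast Finset.card_le_card this

omit [MeasurableSpace Ω] in
theorem prop_le (U : ℕ → Ω → ℝ) (ω : Ω) (t : ℝ) (n : ℕ) : prop U ω t n ≤ 1 := by
  unfold prop
  apply div_le_one_of_le₀ _ (Nat.cast_nonneg n)
  have := Finset.card_filter_le (range n) (fun j => U (Nat.nth Nat.Prime j) ω < t)
  rw [Finset.card_range] at this
  exact_mod_cast this

omit [MeasurableSpace Ω] in
theorem prop_nonneg (U : ℕ → Ω → ℝ) (ω : Ω) (t : ℝ) (n : ℕ) : 0 ≤ prop U ω t n := by
  unfold prop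
  positivity

theorem slln (hind : iIndepFun U μ) (hm : ∀ p, Measurable (U p))
    (hU : ∀ p, μ.map (U p) = (volume : Measure ℝ).restrict (Set.Icc 0 1)) {r : ℝ} (h0 : 0 ≤ r) (h1 : r ≤ 1) :
    ∀ᵐ ω ∂μ, Tendsto (prop U ω r) atTop (𝓝 r) := by
  obtain ⟨V, hV⟩ : ∃ V : ℕ → Ω → ℝ, V = fun j ω => U (Nat.nth Nat.Prime j) ω := ⟨_, rfl⟩
  obtain ⟨X, hX⟩ : ∃ X : ℕ → Ω → ℝ, X = fun j ω => (Set.Iio r).indicator (fun _ => (1 : ℝ)) (V j ω) := ⟨_, rfl⟩
  have hinj : Function.Injective (Nat.nth Nat.Prime) := Nat.nth_injective Nat.infinite_setOf_prime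
  have hφ : Measurable ((Set.Iio r).indicator (fun _ : ℝ => (1 : ℝ))) :=
    measurable_const.indicator measurableSet_Iio
  have hVm : ∀ j, Measurable (V j) := fun j => by rw [hV]; exact hm _
  have hVi : iIndepFun V μ := by rw [hV]; exact hind.precomp hinj
  have hXc : ∀ j, X j = ((Set.Iio r).indicator (fun _ : ℝ => (1 : ℝ))) ∘ V j := fun j => by rw [hX]; rfl
  have hint : Integrable (X 0) μ := by
    rw [hXc]
    refine Integrable.of_bound (hφ.comp (hVm 0)).aestronglyMeasurable 1 (Eventually.of_forall fun ω => ?_)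
    simp only [Function.comp_apply]
    by_cases h : V 0 ω ∈ Set.Iio r
    · rw [Set.indicator_of_mem h]; norm_num
    · rw [Set.indicator_of_notMem h]; norm_num
  have hpair : Pairwise (Function.onFun (fun f g => IndepFun f g μ) X) := by
    intro i j hij
    simp only [Function.onFun]
    rw [hXc, hXc]
    exact (hVi.indepFun hij).comp hφ hφ
  have hident : ∀ i, IdentDistrib (X i) (X 0) μ μ := by
    intro i
    rw [hXc, hXc]
    refine IdentDistrib.comp ⟨(hVm i).aemeasurable, (hVm 0).aemeasurable, ?_⟩ hφ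
    rw [hV]
    show μ.map (U (Nat.nth Nat.Prime i)) = μ.map (U (Nat.nth Nat.Prime 0))
    rw [hU, hU]
  have hmean : ∫ ω, X 0 ω ∂μ = r := by
    have h2 : X 0 = {ω | V 0 ω < r}.indicator 1 := by
      rw [hX]
      funext ω
      show (Set.Iio r).indicator (fun _ => (1 : ℝ)) (V 0 ω) = _
      by_cases h : V 0 ω < r
      · rw [Set.indicator_of_mem (show V 0 ω ∈ Set.Iio r from h), Set.indicator_of_mem (show ω ∈ {ω | V 0 ω < r} from h)]
        rfl
      · rw [Set.indicator_of_notMem (show V 0 ω ∉ Set.Iio r from h),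
          Set.indicator_of_notMem (show ω ∉ {ω | V 0 ω < r} from h)]
    have hms : MeasurableSet {ω | V 0 ω < r} := hVm 0 measurableSet_Iio
    rw [h2, integral_indicator_one hms]
    have h3 := unif_Iio hm hU (Nat.nth Nat.Prime 0) h1
    have h4 : {ω | V 0 ω < r} = {ω | U (Nat.nth Nat.Prime 0) ω < r} := by rw [hV]
    rw [h4, Measure.real, h3, ENNReal.toReal_ofReal h0]
  have h2 := strong_law_ae_real X hint hpair hident
  filter_upwards [h2] with ω hω
  rw [hmean] at hω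
  refine hω.congr fun n => ?_
  unfold prop
  congr 1
  rw [Finset.card_filter]
  push_cast
  refine Finset.sum_congr rfl fun j _ => ?_
  rw [hX, hV]
  simp only
  by_cases h : U (Nat.nth Nat.Prime j) ω < r
  · rw [Set.indicator_of_mem (show U (Nat.nth Nat.Prime j) ω ∈ Set.Iio r from h), if_pos h]
  · rw [Set.indicator_of_notMem (show U (Nat.nth Nat.Prime j) ω ∉ Set.Iio r from h), if_neg h]

theorem dens (hind : iIndepFun U μ) (hm : ∀ p, Measurable (U p))
    (hU : ∀ p, μ.map (U p) = (volume : Measure ℝ).restrict (Set.Icc 0 1)) :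
    ∀ᵐ ω ∂μ, ∀ t : ℝ, 0 ≤ t → t ≤ 1 → Tendsto (prop U ω t) atTop (𝓝 t) := by
  have h1 : ∀ᵐ ω ∂μ, ∀ r : ℚ, 0 ≤ (r : ℝ) → (r : ℝ) ≤ 1 → Tendsto (prop U ω r) atTop (𝓝 (r : ℝ)) := by
    rw [ae_all_iff]
    intro r
    by_cases h : 0 ≤ (r : ℝ) ∧ (r : ℝ) ≤ 1
    · filter_upwards [slln hind hm hU h.1 h.2] with ω hω _ _
      exact hω
    · exact Eventually.of_forall fun ω h2 h3 => absurd ⟨h2, h3⟩ h
  filter_upwards [h1] with ω hω t ht0 ht1
  rw [tendsto_order]
  constructor
  · intro a ha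
    rcases lt_or_ge a 0 with h | h
    · exact Eventually.of_forall fun n => lt_of_lt_of_le h (prop_nonneg U ω t n)
    · obtain ⟨r, hr1, hr2⟩ := exists_rat_btwn ha
      filter_upwards [((tendsto_order.1 (hω r (by linarith) (by linarith))).1 a hr1)] with n hn
      exact lt_of_lt_of_le hn (prop_mono U ω hr2.le n)
  · intro a ha
    rcases lt_or_ge 1 a with h | h
    · exact Eventually.of_forall fun n => lt_of_le_of_lt (prop_le U ω t n) h
    · obtain ⟨r, hr1, hr2⟩ := exists_rat_btwn ha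
      filter_upwards [((tendsto_order.1 (hω r (by linarith) (by linarith))).2 a hr2)] with n hn
      exact lt_of_le_of_lt (prop_mono U ω hr1.le n) hn

theorem cm_CM {s : ℕ → ℤ} (hs : ∀ p, s p = 1 ∨ s p = -1) : CM (cm s) := by
  refine ⟨cm_one s, fun m n hm hn => cm_mul s (by omega) (by omega), fun n _ => ?_⟩
  have h1 := cm_abs (s := s) (fun p => by rcases hs p with h | h <;> rw [h] <;> norm_num) n
  rcases abs_eq (show (0 : ℤ) ≤ 1 by norm_num) |>.1 h1 with h | h
  · exact Or.inl h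
  · exact Or.inr h

/-- **the path** -/
theorem path : ∃ f : ℝ → ℕ → ℤ, (∀ t, CM (f t)) ∧ (∀ p : ℕ, p.Prime → f 0 p = -1 ∧ f 1 p = 1) ∧
    (∀ s t p, s ≤ t → p.Prime → f s p ≤ f t p) ∧
    (∀ t : ℝ, 0 ≤ t → t ≤ 1 → Tendsto (fun n : ℕ =>
      (((range n).filter (fun j => f t (Nat.nth Nat.Prime j) = 1)).card : ℝ) / n) atTop (𝓝 t)) ∧
    ∀ t : ℝ, 0 < t → t < 1 → SC (f t) := by
  have : IsProbabilityMeasure ((volume : Measure ℝ).restrict (Set.Icc 0 1)) := ⟨by simp⟩
  obtain ⟨Ω, _, P, U, hm, hlaw, hind, hP⟩ := exists_iid ℕ ((volume : Measure ℝ).restrict (Set.Icc 0 1))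
  have hU : ∀ p, P.map (U p) = (volume : Measure ℝ).restrict (Set.Icc 0 1) := fun p => (hlaw p).map_eq
  have h01 : ∀ᵐ ω ∂P, ∀ p, 0 ≤ U p ω ∧ U p ω < 1 := by
    rw [ae_all_iff]
    intro p
    have h1 : P {ω | U p ω < 0} = 0 := by
      rw [unif_Iio hm hU p (by norm_num)]
      simp
    have h2 : P {ω | U p ω < 1} = 1 := by
      rw [unif_Iio hm hU p le_rfl]
      simp
    have h3 : ∀ᵐ ω ∂P, U p ω < 1 := by
      rw [ae_iff]
      have h4 : {ω | ¬ U p ω < 1} = {ω | U p ω < 1}ᶜ := rfl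
      have hms : MeasurableSet {ω | U p ω < 1} := hm p measurableSet_Iio
      rw [h4, prob_compl_eq_zero_iff hms]
      exact h2
    have h4 : ∀ᵐ ω ∂P, 0 ≤ U p ω := by
      rw [ae_iff]
      simp only [not_le]
      exact h1
    filter_upwards [h3, h4] with ω h5 h6
    exact ⟨h6, h5⟩
  obtain ⟨ω, hω1, hω2, hω3⟩ := (h01.and ((dens hind hm hU).and (all_levels hind hm hU))).exists
  obtain ⟨s, hs⟩ : ∃ s : ℝ → ℕ → ℤ, s = fun t p => if U p ω < t then 1 else -1 := ⟨_, rfl⟩
  have hs1 : ∀ t p, s t p = 1 ∨ s t p = -1 := by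
    intro t p
    rw [hs]
    simp only
    split_ifs <;> simp
  refine ⟨fun t => cm (s t), fun t => cm_CM (hs1 t), ?_, ?_, ?_, ?_⟩
  · intro p hp
    simp only [cm_prime _ hp]
    rw [hs]
    simp only
    rw [if_neg (not_lt.2 (hω1 p).1), if_pos (hω1 p).2]
    exact ⟨rfl, rfl⟩
  · intro u t p hut hp
    simp only [cm_prime _ hp]
    rw [hs]
    simp only
    split_ifs with h1 h2 h2
    · exact le_rfl
    · exact absurd (lt_of_lt_of_le h1 hut) h2
    · norm_num
    · exact le_rfl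
  · intro t ht0 ht1
    refine (hω2 t ht0 ht1).congr fun n => ?_
    unfold prop
    congr 2
    congr 1
    apply Finset.filter_congr
    intro j _
    show _ ↔ cm (s t) (Nat.nth Nat.Prime j) = 1
    rw [cm_prime _ (Nat.prime_nth_prime j), hs]
    simp only
    split_ifs with h
    · simp [h]
    · simp [h]
  · intro t ht0 ht1
    refine hω3 t ht0 ht1 _ (cm_CM (hs1 t)) (Eventually.of_forall fun p hp => ?_)
    simp only [cm_prime _ hp]
    rw [hs]

end Pool.Agent.U26Z.NA
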