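import Pool.Agent.U26Z.NA.As

set_option autoImplicit false

/-!
# All times of a noise dynamics simultaneously: the almost sure theorem
-/

namespace Pool.Agent.U26Z.NA

open Finset Filter Topology MeasureTheory ProbabilityTheory
open Pool.Agent.U26Z.NL (EE cm lamT noisy TF cm_congr cm_mul cm_one cm_prime)
open Pool.Agent.U26Z.NP (rt rt_pow rt_log rt_tend cast_tend)
open Pool.Agent.U26Z.NS (cw pow_ev sum_recip ci ci_eq Dn bdiff Dn_le)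

/-- the grid -/
theorem grid {G : ℕ} (hG : 1 ≤ G) {t : ℝ} (h0 : 0 ≤ t) (h1 : t ≤ 1) :
    ∃ j < G, (j : ℝ) / G ≤ t ∧ t ≤ ((j : ℝ) + 1) / G := by
  have hG0 : (0 : ℝ) < G := by exact_mod_cast hG
  rcases lt_or_ge ⌊t * G⌋₊ G with h | h
  · refine ⟨⌊t * G⌋₊, h, ?_, ?_⟩
    · rw [div_le_iff₀ hG0]
      exact Nat.floor_le (by positivity)
    · rw [le_div_iff₀ hG0]
      exact (Nat.lt_floor_add_one _).le
  · have h2 : (G : ℝ) ≤ t * G := by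
      have h3 : ((⌊t * G⌋₊ : ℕ) : ℝ) ≤ t * G := Nat.floor_le (by positivity)
      have h4 : (G : ℝ) ≤ (⌊t * G⌋₊ : ℕ) := by exact_mod_cast h
      linarith
    have h3 : t = 1 := by
      apply le_antisymm h1
      by_contra h4
      push Not at h4
      nlinarith
    refine ⟨G - 1, by omega, ?_, ?_⟩
    · rw [h3, div_le_one hG0]
      exact_mod_cast Nat.sub_le G 1
    · rw [h3, Nat.cast_sub hG]
      push_cast
      rw [sub_add_cancel, div_self hG0.ne']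

variable {Ω : Type} [MeasurableSpace Ω]

/-- the deterministic part -/
theorem det {k : ℕ} {ε c : ℝ} {X : ℕ → ℝ → Ω → ℤ} (hX : ∀ p t ω, X p t ω = 1 ∨ X p t ω = -1)
    {ω : Ω} {N E G : ℕ} (hG : 1 ≤ G) (hε : 0 < ε) (hN1 : 16 * k ≤ ε * (N : ℝ) ^ c) (hN2 : 16 * k ≤ ε * (N : ℝ) ^ ε)
    (hNE : 1 ≤ N)
    (hU : ∀ x H : ℕ, x + H ≤ N → (N : ℝ) ^ ε ≤ H → ∀ a b : Fin k → ℕ,
      (∀ i, 1 ≤ a i ∧ (a i : ℝ) ≤ (N : ℝ) ^ c ∧ (b i : ℝ) ≤ (N : ℝ) ^ c) → (∀ i j, i ≠ j → a i * b j ≠ a j * b i) →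
      ∀ i, a i * H + (a i * x + b i) ≤ H ^ E)
    (h1 : ∀ j ≤ G, ∀ x H : ℕ, x + H ≤ N → (N : ℝ) ^ ε ≤ H → ∀ a b : Fin k → ℕ,
      (∀ i, 1 ≤ a i ∧ (a i : ℝ) ≤ (N : ℝ) ^ c ∧ (b i : ℝ) ≤ (N : ℝ) ^ c) → (∀ i j, i ≠ j → a i * b j ≠ a j * b i) →
      ∀ A ⊆ range (⌊(N : ℝ) ^ c⌋₊ + 1), |cw (fun _ => 1) (lamT (A ∪ TF (fun p => X p (j / G))
        (FF ⌊(N : ℝ) ^ c⌋₊ (H ^ E)) ω)) a (fun i => a i * x + b i) H| < ε / 2 * H)
    (h2 : ∀ j < G, ∀ p ≤ N ^ E, ∀ q ≤ N ^ E, p ≠ q →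
      ¬ (ω ∈ jmp X p ((j : ℝ) / G) (((j : ℝ) + 1) / G) ∧ ω ∈ jmp X q ((j : ℝ) / G) (((j : ℝ) + 1) / G))) :
    Good k ε c X ω N := by
  intro t ht0 ht1 g hg hgp x H hxH hNH a b hab hdet
  obtain ⟨y₁, hy₁⟩ : ∃ y₁, y₁ = ⌊(N : ℝ) ^ c⌋₊ := ⟨_, rfl⟩
  rw [← hy₁] at h1
  obtain ⟨j, hj, hj1, hj2⟩ := grid hG ht0 ht1
  have hgp' : ∀ p : ℕ, p.Prime → y₁ < p → g p = -X p t ω := by
    intro p hp hyp
    apply hgp p hp
    rw [hy₁] at hyp
    exact (Nat.floor_lt (Real.rpow_nonneg (Nat.cast_nonneg N) c)).1 hyp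
  have hHE := hU x H hxH hNH a b hab hdet
  obtain ⟨A, hA, hci⟩ := ci_adv hg hX hgp' (fun i => (hab i).1) hHE
  have h3 := h1 j hj.le x H hxH hNH a b hab hdet A hA
  obtain ⟨F, hF⟩ : ∃ F, F = FF y₁ (H ^ E) := ⟨_, rfl⟩
  rw [← hF] at h3 hci
  have hHN : H ^ E ≤ N ^ E := Nat.pow_le_pow_left (by omega) E
  have hFm : ∀ p ∈ F, p.Prime ∧ y₁ < p ∧ p ≤ N ^ E := by
    intro p hp
    rw [hF, FF, mem_filter, mem_Icc] at hp
    exact ⟨hp.2.1, hp.2.2, hp.1.2.trans hHN⟩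
  rw [hci]
  -- the exceptional prime
  have hstay : ∀ p, ω ∉ jmp X p ((j : ℝ) / G) (((j : ℝ) + 1) / G) → X p t ω = X p (j / G) ω := by
    intro p hp
    by_contra hne
    exact hp ⟨t, ⟨hj1, hj2⟩, hne⟩
  have key : ∃ q, q ∈ F ∧ (∀ p ∈ F, p ≠ q → X p t ω = X p (j / G) ω) ∨
      (∀ p ∈ F, X p t ω = X p (j / G) ω) := by
    by_cases h4 : ∃ q ∈ F, ω ∈ jmp X q ((j : ℝ) / G) (((j : ℝ) + 1) / G)
    · obtain ⟨q, hq, hjq⟩ := h4
      refine ⟨q, Or.inl ⟨hq, fun p hp hpq => hstay p fun hjp => ?_⟩⟩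
      exact h2 j hj p (hFm p hp).2.2 q (hFm q hq).2.2 hpq ⟨hjp, hjq⟩
    · push Not at h4
      exact ⟨0, Or.inr fun p hp => hstay p (h4 p hp)⟩
  have hH0 : (0 : ℝ) ≤ H := Nat.cast_nonneg H
  obtain ⟨q, hq | hq⟩ := key
  · obtain ⟨hqF, hq⟩ := hq
    have h4 : insert q (A ∪ TF (fun p => X p t) F ω) = insert q (A ∪ TF (fun p => X p (j / G)) F ω) := by
      rw [← Finset.union_insert, ← Finset.union_insert, TF_near F q hq]
    have h5 := cw_near (a := a) (b := fun i => a i * x + b i) (w := fun _ => 1) (fun _ => by norm_num)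
      (fun i => (hab i).1) H q _ _ h4
    have hqy : ((N : ℝ)) ^ c < q := by
      have := (hFm q hqF).2.1
      rw [hy₁] at this
      exact (Nat.floor_lt (Real.rpow_nonneg (Nat.cast_nonneg N) c)).1 this
    have hq0 : (0 : ℝ) < q := lt_of_le_of_lt (Real.rpow_nonneg (Nat.cast_nonneg N) c) hqy
    have h6 := Dn_le (b := fun i => a i * x + b i) (H := H) (fun i => (hab i).1) (hFm q hqF).1 (fun i => by
      have : (a i : ℝ) < q := lt_of_le_of_lt (hab i).2.1 hqy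
      exact_mod_cast this)
    have h7 : 4 * (k : ℝ) * ((H : ℝ) / q) ≤ ε / 4 * H := by
      rw [← mul_div_assoc, div_le_iff₀ hq0]
      have h8 : 16 * (k : ℝ) ≤ ε * q := hN1.trans (mul_le_mul_of_nonneg_left hqy.le hε.le)
      nlinarith
    have h8 : 4 * (k : ℝ) ≤ ε / 4 * H := by
      have h9 : 16 * (k : ℝ) ≤ ε * H := hN2.trans (mul_le_mul_of_nonneg_left hNH hε.le)
      linarith
    have h9 : 4 * (Dn a (fun i => a i * x + b i) H q : ℝ) ≤ ε / 2 * H := by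
      have e : (k : ℝ) * ((H : ℝ) / q + 1) = k * ((H : ℝ) / q) + k := by ring
      rw [e] at h6
      linarith
    have h10 := abs_le.1 h5
    have h11 := abs_lt.1 h3
    rw [abs_le]
    constructor <;> linarith
  · have h4 : TF (fun p => X p t) F ω = TF (fun p => X p (j / G)) F ω := by
      unfold TF
      apply Finset.filter_congr
      intro p hp
      show X p t ω = -1 ↔ X p (j / G) ω = -1
      rw [hq p hp]
    rw [h4]
    have : ε / 2 * H ≤ ε * H := by nlinarith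
    linarith

/-- the union bound is summable -/
theorem union_small (k D : ℕ) {c : ℝ} (hc : 0 < c) (hc1 : c ≤ 1) :
    ∀ᶠ N : ℕ in atTop, (((N ^ D + 1) * ((N + 1) * (N + 1)) *
      ((⌊(N : ℝ) ^ c⌋₊ + 1) ^ k * (⌊(N : ℝ) ^ c⌋₊ + 1) ^ k) * 2 ^ (⌊(N : ℝ) ^ c⌋₊ + 1) : ℕ) : ℝ) *
      Real.exp (-(3 * (N : ℝ) ^ c)) ≤ 1 / (N : ℝ) ^ 2 := by
  have hlog := Pool.Agent.U26Z.NP.log_pow_small ((D + 1 + 4 + 2 * k + 2 * k + 1 + 2 : ℕ) : ℝ) 1 hc
  filter_upwards [hlog, eventually_ge_atTop 3] with N h1 h2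
  have hN0 : (0 : ℝ) < N := by exact_mod_cast (by omega : 0 < N)
  have hN2 : (2 : ℝ) ≤ N := by exact_mod_cast (by omega : 2 ≤ N)
  obtain ⟨v, hv⟩ : ∃ v : ℝ, v = (N : ℝ) ^ c := ⟨_, rfl⟩
  rw [← hv, pow_one] at h1
  rw [← hv]
  have hv0 : 0 ≤ v := by rw [hv]; exact Real.rpow_nonneg hN0.le c
  have hvN : v ≤ N := by
    rw [hv]
    calc (N : ℝ) ^ c ≤ (N : ℝ) ^ (1 : ℝ) := Real.rpow_le_rpow_of_exponent_le (by linarith) hc1
      _ = N := Real.rpow_one _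
  have hf : ((⌊v⌋₊ : ℕ) : ℝ) ≤ v := Nat.floor_le hv0
  have e1 : ((N ^ D + 1 : ℕ) : ℝ) ≤ (N : ℝ) ^ (D + 1) := by
    push_cast
    rw [pow_succ]
    have : (1 : ℝ) ≤ (N : ℝ) ^ D := one_le_pow₀ (by linarith)
    nlinarith
  have e2 : ((N : ℝ) + 1) ≤ (N : ℝ) ^ 2 := by nlinarith
  have e3 : ((⌊v⌋₊ + 1 : ℕ) : ℝ) ≤ (N : ℝ) ^ 2 := by
    push_cast
    linarith
  have e4 : (2 : ℝ) ^ (⌊v⌋₊ + 1) ≤ N * Real.exp v := by
    rw [pow_succ, mul_comm]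
    have h3 : (2 : ℝ) ^ ⌊v⌋₊ ≤ Real.exp v := by
      have h4 : (2 : ℝ) ≤ Real.exp 1 := by have := Real.exp_one_gt_d9; linarith
      calc (2 : ℝ) ^ ⌊v⌋₊ ≤ (Real.exp 1) ^ ⌊v⌋₊ := pow_le_pow_left₀ (by norm_num) h4 _
        _ = Real.exp ((⌊v⌋₊ : ℕ) : ℝ) := by rw [← Real.exp_nat_mul, mul_one]
        _ ≤ Real.exp v := Real.exp_le_exp.2 hf
    have h4 : (0 : ℝ) < (2 : ℝ) ^ ⌊v⌋₊ := by positivity
    nlinarith
  have e5 : (((N ^ D + 1) * ((N + 1) * (N + 1)) *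
      ((⌊v⌋₊ + 1) ^ k * (⌊v⌋₊ + 1) ^ k) * 2 ^ (⌊v⌋₊ + 1) : ℕ) : ℝ) ≤
      (N : ℝ) ^ (D + 1 + 4 + 2 * k + 2 * k + 1) * Real.exp v := by
    have e6 : (((N ^ D + 1) * ((N + 1) * (N + 1)) *
      ((⌊v⌋₊ + 1) ^ k * (⌊v⌋₊ + 1) ^ k) * 2 ^ (⌊v⌋₊ + 1) : ℕ) : ℝ) =
      ((N ^ D + 1 : ℕ) : ℝ) * (((N : ℝ) + 1) * ((N : ℝ) + 1)) *
      (((⌊v⌋₊ + 1 : ℕ) : ℝ) ^ k * ((⌊v⌋₊ + 1 : ℕ) : ℝ) ^ k) * (2 : ℝ) ^ (⌊v⌋₊ + 1) := by
      push_cast
      ring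
    rw [e6]
    calc _ ≤ (N : ℝ) ^ (D + 1) * ((N : ℝ) ^ 2 * (N : ℝ) ^ 2) * (((N : ℝ) ^ 2) ^ k * ((N : ℝ) ^ 2) ^ k) *
          (N * Real.exp v) := by
          have := Real.exp_pos v
          gcongr
      _ = _ := by
          rw [← pow_mul]
          ring
  have e7 : (N : ℝ) ^ (D + 1 + 4 + 2 * k + 2 * k + 1) * (N : ℝ) ^ 2 ≤ Real.exp v := by
    rw [← pow_add]
    have h3 : (N : ℝ) ^ (D + 1 + 4 + 2 * k + 2 * k + 1 + 2) =
        Real.exp (((D + 1 + 4 + 2 * k + 2 * k + 1 + 2 : ℕ) : ℝ) * Real.log N) := by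
      rw [Real.exp_nat_mul, Real.exp_log hN0]
    rw [h3]
    exact Real.exp_le_exp.2 h1
  rw [le_div_iff₀ (by positivity)]
  have hexp : Real.exp v * Real.exp v * Real.exp (-(3 * v)) ≤ 1 := by
    rw [← Real.exp_add, ← Real.exp_add]
    apply Real.exp_le_one_iff.2
    linarith
  calc _ ≤ (N : ℝ) ^ (D + 1 + 4 + 2 * k + 2 * k + 1) * Real.exp v * Real.exp (-(3 * v)) * (N : ℝ) ^ 2 := by
        gcongr
    _ = ((N : ℝ) ^ (D + 1 + 4 + 2 * k + 2 * k + 1) * (N : ℝ) ^ 2) * Real.exp v * Real.exp (-(3 * v)) := by ring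
    _ ≤ Real.exp v * Real.exp v * Real.exp (-(3 * v)) := by
        have := Real.exp_pos v
        gcongr
    _ ≤ 1 := hexp

/-- the index set -/
def Ix (k G N y₁ : ℕ) : Finset (ℕ × (ℕ × ℕ) × ((Fin k → ℕ) × (Fin k → ℕ)) × Finset ℕ) :=
  (range (G + 1)) ×ˢ (range (N + 1) ×ˢ range (N + 1)) ×ˢ
    ((Fintype.piFinset fun _ : Fin k => range (y₁ + 1)) ×ˢ (Fintype.piFinset fun _ : Fin k => range (y₁ + 1))) ×ˢ
    (range (y₁ + 1)).powerset

theorem Ix_card (k G N y₁ : ℕ) : (Ix k G N y₁).card =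
    (G + 1) * ((N + 1) * (N + 1)) * ((y₁ + 1) ^ k * (y₁ + 1) ^ k) * 2 ^ (y₁ + 1) := by
  unfold Ix
  simp only [Finset.card_product, Finset.card_range, Fintype.card_piFinset, Finset.prod_const, Finset.card_univ,
    Fintype.card_fin, Finset.card_powerset]
  ring

/-- **the almost sure theorem, all times simultaneously** -/
theorem as_dyn (k : ℕ) (hk : 0 < k) {d ε : ℝ} (hd : 0 < d) (hε : 0 < ε) (hε1 : ε ≤ 1) :
    ∃ c : ℝ, 0 < c ∧ ∀ {Ω : Type} [MeasurableSpace Ω] {μ : Measure Ω} [IsProbabilityMeasure μ]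
    {X : ℕ → ℝ → Ω → ℤ} {C : ℝ},
    (∀ t, iIndepFun (fun p => X p t) μ) → (∀ p t, Measurable (X p t)) → (∀ p t ω, X p t ω = 1 ∨ X p t ω = -1) →
    (∀ p t, 0 ≤ t → t ≤ 1 → d ≤ (μ {ω | X p t ω = -1}).toReal ∧ (μ {ω | X p t ω = -1}).toReal ≤ 1 - d) →
    (∀ p q, p ≠ q → ∀ s t, 0 ≤ s → s ≤ t → t ≤ 1 →
      μ (jmp X p s t ∩ jmp X q s t) ≤ ENNReal.ofReal (C * (t - s) ^ 2)) →
    ∀ᵐ ω ∂μ, ∀ᶠ N : ℕ in atTop, Good k ε c X ω N := by
  classical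
  obtain ⟨c₀, E, hc₀, hev⟩ := tailN k hk hd (show 0 < ε / 2 by positivity) (by linarith)
  obtain ⟨c, hc⟩ : ∃ c, c = min c₀ 1 := ⟨_, rfl⟩
  have hc0 : 0 < c := by rw [hc]; exact lt_min hc₀ one_pos
  have hc1 : c ≤ 1 := by rw [hc]; exact min_le_right _ _
  have hcc : c ≤ c₀ := by rw [hc]; exact min_le_left _ _
  refine ⟨c, hc0, fun {Ω} _ {μ} _ {X} {C} hind hm hX hpr hj => ?_⟩
  obtain ⟨B, hB⟩ : ∃ B : ℕ → Set Ω, B = fun N => {ω | ¬ Good k ε c X ω N} := ⟨_, rfl⟩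
  have hprob : ∀ᶠ N : ℕ in atTop, μ (B N) ≤ ENNReal.ofReal ((1 + 4 * |C|) / (N : ℝ) ^ 2) := by
    filter_upwards [hev, union_small k (2 * E + 4) hc0 hc1, eventually_ge_atTop 2,
      pow_ev hc0 (16 * k / ε), pow_ev hε (16 * k / ε)] with N h1 h2 h3 h4 h5
    have hN0 : (0 : ℝ) < N := by exact_mod_cast (by omega : 0 < N)
    have hN1 : (1 : ℝ) ≤ N := by exact_mod_cast (by omega : 1 ≤ N)
    have hcN : (N : ℝ) ^ c ≤ (N : ℝ) ^ c₀ := Real.rpow_le_rpow_of_exponent_le hN1 hcc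
    have hεN : (N : ℝ) ^ (ε / 2) ≤ (N : ℝ) ^ ε := Real.rpow_le_rpow_of_exponent_le hN1 (by linarith)
    rw [div_le_iff₀ hε] at h4 h5
    obtain ⟨G, hG⟩ : ∃ G, G = N ^ (2 * E + 4) := ⟨_, rfl⟩
    have hG1 : 1 ≤ G := by rw [hG]; exact Nat.one_le_pow _ _ (by omega)
    have hG0 : (0 : ℝ) < G := by exact_mod_cast hG1
    rw [← hG] at h2
    obtain ⟨y₁, hy₁⟩ : ∃ y₁, y₁ = ⌊(N : ℝ) ^ c⌋₊ := ⟨_, rfl⟩
    rw [← hy₁] at h2
    have hy₁c : (y₁ : ℝ) ≤ (N : ℝ) ^ c := by rw [hy₁]; exact Nat.floor_le (Real.rpow_nonneg hN0.le c)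
    -- the events
    obtain ⟨S1, hS1⟩ : ∃ S1 : ℕ × (ℕ × ℕ) × ((Fin k → ℕ) × (Fin k → ℕ)) × Finset ℕ → Set Ω, S1 = fun v =>
      {ω | (v.2.1.1 + v.2.1.2 ≤ N ∧ (N : ℝ) ^ ε ≤ v.2.1.2 ∧
        (∀ i, 1 ≤ v.2.2.1.1 i ∧ (v.2.2.1.1 i : ℝ) ≤ (N : ℝ) ^ c ∧ (v.2.2.1.2 i : ℝ) ≤ (N : ℝ) ^ c) ∧
        (∀ i j, i ≠ j → v.2.2.1.1 i * v.2.2.1.2 j ≠ v.2.2.1.1 j * v.2.2.1.2 i)) ∧
        ε / 2 * v.2.1.2 ≤ |cw (fun _ => 1) (lamT (v.2.2.2 ∪ TF (fun p => X p (v.1 / G))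
          (FF y₁ (v.2.1.2 ^ E)) ω)) v.2.2.1.1 (fun i => v.2.2.1.1 i * v.2.1.1 + v.2.2.1.2 i) v.2.1.2|} := ⟨_, rfl⟩
    obtain ⟨S2, hS2⟩ : ∃ S2 : ℕ × (ℕ × ℕ) → Set Ω, S2 = fun v => {ω | v.2.1 ≠ v.2.2 ∧
      (ω ∈ jmp X v.2.1 ((v.1 : ℝ) / G) (((v.1 : ℝ) + 1) / G) ∧
       ω ∈ jmp X v.2.2 ((v.1 : ℝ) / G) (((v.1 : ℝ) + 1) / G))} := ⟨_, rfl⟩
    have hsub : B N ⊆ (⋃ v ∈ Ix k G N y₁, S1 v) ∪
        (⋃ v ∈ (range G) ×ˢ (range (N ^ E + 1) ×ˢ range (N ^ E + 1)), S2 v) := by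
      intro ω hω
      by_contra hcon
      rw [Set.mem_union, not_or, Set.mem_iUnion₂, Set.mem_iUnion₂] at hcon
      obtain ⟨hc1', hc2⟩ := hcon
      rw [hB] at hω
      apply hω
      refine det (E := E) (G := G) hX hG1 hε (by linarith) (by linarith) (by omega) ?_ ?_ ?_
      · intro x H hxH hNH a b hab hdet
        exact (h1 (fun _ => 1 / 2) (fun _ => by
          have := (hpr 0 0 le_rfl zero_le_one)
          linarith) (fun _ => by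
          have := (hpr 0 0 le_rfl zero_le_one)
          linarith) (fun _ => 1) (fun _ => by norm_num) x H hxH (hεN.trans hNH) a b
          (fun i => ⟨(hab i).1, (hab i).2.1.trans hcN, (hab i).2.2.trans hcN⟩) hdet).1
      · intro j hj' x H hxH hNH a b hab hdet A hA
        by_contra hbad
        rw [not_lt, ← hy₁] at hbad
        rw [← hy₁] at hA
        apply hc1'
        refine ⟨(j, (x, H), (a, b), A), ?_, ?_⟩
        · unfold Ix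
          simp only [mem_product, mem_range, Fintype.mem_piFinset, mem_powerset]
          refine ⟨by omega, ⟨by omega, by omega⟩, ⟨fun i => ?_, fun i => ?_⟩, hA⟩
          · have h6 : a i ≤ y₁ := by rw [hy₁]; exact Nat.le_floor (hab i).2.1
            omega
          · have h6 : b i ≤ y₁ := by rw [hy₁]; exact Nat.le_floor (hab i).2.2
            omega
        · rw [hS1]
          exact ⟨⟨hxH, hNH, hab, hdet⟩, hbad⟩
      · intro j hj' p hp q hq hpq hjj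
        apply hc2
        refine ⟨(j, (p, q)), ?_, ?_⟩
        · simp only [mem_product, mem_range]
          exact ⟨hj', by omega, by omega⟩
        · rw [hS2]
          exact ⟨hpq, hjj⟩
    have hone : ∀ v ∈ Ix k G N y₁, μ (S1 v) ≤ ENNReal.ofReal (Real.exp (-(3 * (N : ℝ) ^ c))) := by
      intro v hv
      unfold Ix at hv
      simp only [mem_product, mem_range, Fintype.mem_piFinset, mem_powerset] at hv
      rw [hS1]
      by_cases hcond : (v.2.1.1 + v.2.1.2 ≤ N ∧ (N : ℝ) ^ ε ≤ v.2.1.2 ∧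
        (∀ i, 1 ≤ v.2.2.1.1 i ∧ (v.2.2.1.1 i : ℝ) ≤ (N : ℝ) ^ c ∧ (v.2.2.1.2 i : ℝ) ≤ (N : ℝ) ^ c) ∧
        (∀ i j, i ≠ j → v.2.2.1.1 i * v.2.2.1.2 j ≠ v.2.2.1.1 j * v.2.2.1.2 i))
      · have ht0 : (0 : ℝ) ≤ (v.1 : ℝ) / G := by positivity
        have ht1 : (v.1 : ℝ) / G ≤ 1 := by
          rw [div_le_one hG0]
          exact_mod_cast (by omega : v.1 ≤ G)
        obtain ⟨δ, hδ⟩ : ∃ δ : ℕ → ℝ, δ = fun p => (μ {ω | X p (v.1 / G) ω = -1}).toReal := ⟨_, rfl⟩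
        have hδμ : ∀ p, μ {ω | X p (v.1 / G) ω = -1} = ENNReal.ofReal (δ p) := by
          intro p
          rw [hδ]
          exact (ENNReal.ofReal_toReal (measure_ne_top μ _)).symm
        have hδ1 : ∀ p, d ≤ δ p := fun p => by rw [hδ]; exact (hpr p _ ht0 ht1).1
        have hδ2 : ∀ p, δ p ≤ 1 - d := fun p => by rw [hδ]; exact (hpr p _ ht0 ht1).2
        have h6 := (h1 δ hδ1 hδ2 (fun _ => 1) (fun _ => by norm_num) v.2.1.1 v.2.1.2 hcond.1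
          (hεN.trans hcond.2.1) v.2.2.1.1 v.2.2.1.2
          (fun i => ⟨(hcond.2.2.1 i).1, (hcond.2.2.1 i).2.1.trans hcN, (hcond.2.2.1 i).2.2.trans hcN⟩)
          hcond.2.2.2).2 y₁ (hy₁c.trans hcN) v.2.2.2 (fun p hp => by
            have := mem_range.1 (hv.2.2.2 hp)
            omega)
        have h7 := prob_le (μ := μ) (hind (v.1 / G)) (fun p => hm p (v.1 / G)) (δ := δ)
          (fun p => hd.le.trans (hδ1 p)) (fun p => (hδ2 p).trans (by linarith)) hδμ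
          (FF y₁ (v.2.1.2 ^ E)) (fun T => ε / 2 * v.2.1.2 ≤ |cw (fun _ => 1) (lamT (v.2.2.2 ∪ T))
            v.2.2.1.1 (fun i => v.2.2.1.1 i * v.2.1.1 + v.2.2.1.2 i) v.2.1.2|)
        refine (measure_mono ?_).trans (h7.trans (ENNReal.ofReal_le_ofReal ?_))
        · intro ω hω
          exact hω.2
        · have h8 : Real.exp (-(3 * (N : ℝ) ^ c₀)) ≤ Real.exp (-(3 * (N : ℝ) ^ c)) :=
            Real.exp_le_exp.2 (by linarith)
          refine le_trans ?_ h8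
          unfold FF
          convert h6 using 3
      · have h6 : {ω | (v.2.1.1 + v.2.1.2 ≤ N ∧ (N : ℝ) ^ ε ≤ v.2.1.2 ∧
            (∀ i, 1 ≤ v.2.2.1.1 i ∧ (v.2.2.1.1 i : ℝ) ≤ (N : ℝ) ^ c ∧ (v.2.2.1.2 i : ℝ) ≤ (N : ℝ) ^ c) ∧
            (∀ i j, i ≠ j → v.2.2.1.1 i * v.2.2.1.2 j ≠ v.2.2.1.1 j * v.2.2.1.2 i)) ∧
            ε / 2 * v.2.1.2 ≤ |cw (fun _ => 1) (lamT (v.2.2.2 ∪ TF (fun p => X p (v.1 / G))
              (FF y₁ (v.2.1.2 ^ E)) ω)) v.2.2.1.1 (fun i => v.2.2.1.1 i * v.2.1.1 + v.2.2.1.2 i) v.2.1.2|} =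
            (∅ : Set Ω) := by
          ext ω
          simp only [Set.mem_setOf_eq, Set.mem_empty_iff_false, iff_false]
          exact fun h => hcond h.1
        beta_reduce
        rw [h6, measure_empty]
        exact bot_le
    have htwo : ∀ v ∈ (range G) ×ˢ (range (N ^ E + 1) ×ˢ range (N ^ E + 1)),
        μ (S2 v) ≤ ENNReal.ofReal (|C| / (G : ℝ) ^ 2) := by
      intro v hv
      simp only [mem_product, mem_range] at hv
      rw [hS2]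
      by_cases hpq : v.2.1 ≠ v.2.2
      · have h6 := hj v.2.1 v.2.2 hpq ((v.1 : ℝ) / G) (((v.1 : ℝ) + 1) / G) (by positivity)
          (div_le_div_of_nonneg_right (by linarith) hG0.le) (by
            rw [div_le_one hG0]
            exact_mod_cast (by omega : v.1 + 1 ≤ G))
        refine (measure_mono ?_).trans (h6.trans (ENNReal.ofReal_le_ofReal ?_))
        · intro ω hω
          exact hω.2
        · have e : ((v.1 : ℝ) + 1) / G - (v.1 : ℝ) / G = 1 / G := by ring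
          rw [e, div_pow, one_pow, mul_one_div]
          exact div_le_div_of_nonneg_right (le_abs_self C) (by positivity)
      · have h6 : {ω | v.2.1 ≠ v.2.2 ∧ (ω ∈ jmp X v.2.1 ((v.1 : ℝ) / G) (((v.1 : ℝ) + 1) / G) ∧
            ω ∈ jmp X v.2.2 ((v.1 : ℝ) / G) (((v.1 : ℝ) + 1) / G))} = (∅ : Set Ω) := by
          ext ω
          simp only [Set.mem_setOf_eq, Set.mem_empty_iff_false, iff_false]
          exact fun h => hpq h.1
        beta_reduce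
        rw [h6, measure_empty]
        exact bot_le
    have hsum1 : ∑ v ∈ Ix k G N y₁, μ (S1 v) ≤ ENNReal.ofReal (1 / (N : ℝ) ^ 2) := by
      refine (Finset.sum_le_sum hone).trans ?_
      rw [Finset.sum_const, nsmul_eq_mul, ← ENNReal.ofReal_natCast, ← ENNReal.ofReal_mul (Nat.cast_nonneg _)]
      apply ENNReal.ofReal_le_ofReal
      rw [Ix_card]
      exact h2
    have hsum2 : ∑ v ∈ (range G) ×ˢ (range (N ^ E + 1) ×ˢ range (N ^ E + 1)), μ (S2 v) ≤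
        ENNReal.ofReal (4 * |C| / (N : ℝ) ^ 2) := by
      refine (Finset.sum_le_sum htwo).trans ?_
      rw [Finset.sum_const, nsmul_eq_mul, ← ENNReal.ofReal_natCast, ← ENNReal.ofReal_mul (Nat.cast_nonneg _)]
      apply ENNReal.ofReal_le_ofReal
      simp only [Finset.card_product, Finset.card_range]
      push_cast
      have hNE : (1 : ℝ) ≤ (N : ℝ) ^ E := one_le_pow₀ hN1
      have hC0 : 0 ≤ |C| := abs_nonneg C
      have e1 : (G : ℝ) * (((N : ℝ) ^ E + 1) * ((N : ℝ) ^ E + 1)) * (|C| / (G : ℝ) ^ 2) =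
          (((N : ℝ) ^ E + 1) * ((N : ℝ) ^ E + 1)) * |C| / G := by
        field_simp
      rw [e1]
      have e2 : ((N : ℝ) ^ E + 1) * ((N : ℝ) ^ E + 1) ≤ 4 * (N : ℝ) ^ (2 * E) := by
        rw [two_mul, pow_add]
        nlinarith
      have e3 : (G : ℝ) = (N : ℝ) ^ (2 * E) * (N : ℝ) ^ 4 := by
        rw [hG]
        push_cast
        rw [pow_add]
      rw [e3, div_le_div_iff₀ (by positivity) (by positivity)]
      have h0 : (0 : ℝ) < (N : ℝ) ^ (2 * E) := by positivity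
      have h44 : (N : ℝ) ^ 2 ≤ (N : ℝ) ^ 4 := pow_le_pow_right₀ hN1 (by norm_num)
      calc ((N : ℝ) ^ E + 1) * ((N : ℝ) ^ E + 1) * |C| * (N : ℝ) ^ 2 ≤
          4 * (N : ℝ) ^ (2 * E) * |C| * (N : ℝ) ^ 4 := by gcongr
        _ = _ := by ring
    refine (measure_mono hsub).trans ((measure_union_le _ _).trans ?_)
    refine (add_le_add ((measure_biUnion_finset_le _ _).trans hsum1)
      ((measure_biUnion_finset_le _ _).trans hsum2)).trans ?_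
    rw [← ENNReal.ofReal_add (by positivity) (by positivity)]
    apply ENNReal.ofReal_le_ofReal
    rw [← add_div]
  obtain ⟨N1, hN1⟩ := eventually_atTop.1 hprob
  have hsum : Summable (fun i : ℕ => (1 + 4 * |C|) / ((i : ℝ) + 1) ^ 2) := by
    have h2 := (summable_nat_add_iff 1).2 (Real.summable_one_div_nat_pow.2 (by norm_num : 1 < 2))
    have h3 := h2.mul_left (1 + 4 * |C|)
    refine h3.congr fun i => ?_
    push_cast
    ring
  have hBC : ∑' i, μ (B (i + (N1 + 1))) ≠ ⊤ := by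
    refine ne_top_of_le_ne_top hsum.tsum_ofReal_ne_top (ENNReal.tsum_le_tsum fun i => ?_)
    refine (hN1 (i + (N1 + 1)) (by omega)).trans (ENNReal.ofReal_le_ofReal ?_)
    apply div_le_div_of_nonneg_left (by positivity) (by positivity)
    apply pow_le_pow_left₀ (by positivity)
    push_cast
    have : (0 : ℝ) ≤ N1 := Nat.cast_nonneg _
    linarith
  filter_upwards [ae_eventually_notMem hBC] with ω hω
  obtain ⟨I, hI⟩ := eventually_atTop.1 hω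
  refine eventually_atTop.2 ⟨I + (N1 + 1), fun N hN => ?_⟩
  have h3 := hI (N - (N1 + 1)) (by omega)
  have h4 : N - (N1 + 1) + (N1 + 1) = N := by omega
  rw [h4, hB] at h3
  simpa using h3

end Pool.Agent.U26Z.NA
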