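import Pool.Agent.U26Z.NA.Cb
import Pool.Agent.U26Z.NS.Pr

set_option autoImplicit false

/-!
# The tail bound with arbitrary signs at the primes up to `N ^ c`
-/

namespace Pool.Agent.U26Z.NA

open Finset Filter Topology MeasureTheory ProbabilityTheory
open Pool.Agent.U26Z.NL (EE cm lamT noisy TF)
open Pool.Agent.U26Z.NP (rt rt_pow rt_log rt_tend cast_tend)
open Pool.Agent.U26Z.NS (cw pow_ev sum_recip ci ci_eq)

/-- the tail bound on the cube, for large `N` -/
theorem tailN (k : ℕ) (hk : 0 < k) {d ε : ℝ} (hd : 0 < d) (hε : 0 < ε) (hε1 : ε ≤ 1) :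
    ∃ (c : ℝ) (E : ℕ), 0 < c ∧ ∀ᶠ N : ℕ in atTop, ∀ δ : ℕ → ℝ, (∀ p, d ≤ δ p) → (∀ p, δ p ≤ 1 - d) →
    ∀ w : ℕ → ℝ, (∀ n, |w n| ≤ 1) → ∀ x H : ℕ, x + H ≤ N → (N : ℝ) ^ ε ≤ H →
    ∀ a b : Fin k → ℕ, (∀ i, 1 ≤ a i ∧ (a i : ℝ) ≤ (N : ℝ) ^ c ∧ (b i : ℝ) ≤ (N : ℝ) ^ c) →
    (∀ i j, i ≠ j → a i * b j ≠ a j * b i) →
    (∀ i, a i * H + (a i * x + b i) ≤ H ^ E) ∧
    ∀ y₁ : ℕ, (y₁ : ℝ) ≤ (N : ℝ) ^ c → ∀ A : Finset ℕ, (∀ p ∈ A, p ≤ y₁) →
    EE δ ((Icc 1 (H ^ E)).filter (fun p => p.Prime ∧ y₁ < p))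
      (fun T => if ε * H ≤ |cw w (lamT (A ∪ T)) a (fun i => a i * x + b i) H| then 1 else 0) ≤
      Real.exp (-(3 * (N : ℝ) ^ c)) := by
  obtain ⟨C₁, hC₁⟩ := Pool.Agent.Erdos456.Mert.mertens_inv
  have hC₁0 : 0 ≤ C₁ := (abs_nonneg _).trans (hC₁ 3 le_rfl)
  obtain ⟨c, hc⟩ : ∃ c : ℝ, c = ε / 18 * Real.exp (-((88 / ε + 1) / d + 2 * C₁)) := ⟨_, rfl⟩
  have hc0 : 0 < c := by rw [hc]; positivity
  have hcε : c ≤ ε / 18 := by
    rw [hc]
    have : Real.exp (-((88 / ε + 1) / d + 2 * C₁)) ≤ 1 := Real.exp_le_one_iff.2 (by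
      have : 0 ≤ (88 / ε + 1) / d + 2 * C₁ := by positivity
      linarith)
    nlinarith
  obtain ⟨E, hE⟩ : ∃ E : ℕ, E = ⌈3 / ε⌉₊ := ⟨_, rfl⟩
  have hEε : 3 ≤ ε * E := by
    have h1 : 3 / ε ≤ E := by rw [hE]; exact Nat.le_ceil _
    rw [div_le_iff₀ hε] at h1
    linarith
  refine ⟨c, E, hc0, ?_⟩
  have hk0 : (0 : ℝ) < k := by exact_mod_cast hk
  obtain ⟨κ, hκ⟩ : ∃ κ : ℝ, κ = ε ^ 2 / (64 * k ^ 2 * (2 + E)) := ⟨_, rfl⟩
  have hκ0 : 0 < κ := by rw [hκ]; positivity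
  obtain ⟨N1, hN1⟩ := eventually_atTop.1 (rt_log (show 1 ≤ 3 by norm_num))
  obtain ⟨N2, hN2⟩ := eventually_atTop.1 ((rt_tend (show 1 ≤ 3 by norm_num)).eventually_ge_atTop 3)
  filter_upwards [eventually_ge_atTop 3, pow_ev hc0 2, pow_ev hc0 (4 / ε),
    pow_ev hε ((N1 : ℝ) + N2 + 2), pow_ev hc0 (4 / κ), pow_ev hc0 3] with N g1 g2 g3 g4 g5 g7
    δ hd1 hd2' w hw x H hxH hNH a b hab hdet
  have h0 : ∀ p, 0 ≤ δ p := fun p => hd.le.trans (hd1 p)
  have hd2 : ∀ p, δ p ≤ 1 := fun p => (hd2' p).trans (by linarith)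
  have hdd : ∀ p, d ≤ dd δ p := fun p => le_min (hd1 p) (by linarith [hd2' p])
  have hN0 : (0 : ℝ) < N := by exact_mod_cast (by omega : 0 < N)
  have hN1' : (1 : ℝ) ≤ N := by exact_mod_cast (by omega : 1 ≤ N)
  obtain ⟨u, hu⟩ : ∃ u : ℝ, u = (N : ℝ) ^ c := ⟨_, rfl⟩
  rw [← hu] at g2 g3 g5 g7
  have hu2 : (N : ℝ) ^ (2 * c) = u ^ 2 := by
    rw [hu, ← Real.rpow_natCast, ← Real.rpow_mul hN0.le]
    congr 1
    push_cast
    ring
  have hu3 : (N : ℝ) ^ (3 * c) = u ^ 3 := by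
    rw [hu, ← Real.rpow_natCast, ← Real.rpow_mul hN0.le]
    congr 1
    push_cast
    ring
  have hHN1 : N1 + N2 + 2 ≤ H := by
    have : ((N1 : ℝ) + N2 + 2) ≤ H := g4.trans hNH
    exact_mod_cast this
  have hH0 : (0 : ℝ) < H := by exact_mod_cast (by omega : 0 < H)
  -- the parameter `y`
  obtain ⟨y, hy⟩ : ∃ y : ℕ, y = ⌈u ^ 2⌉₊ := ⟨_, rfl⟩
  have hyu : u ^ 2 ≤ y := by rw [hy]; exact Nat.le_ceil _
  have hyu2 : (y : ℝ) ≤ u ^ 3 := by
    have h1 : (y : ℝ) < u ^ 2 + 1 := by rw [hy]; exact Nat.ceil_lt_add_one (by positivity)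
    nlinarith
  have hyε : (y : ℝ) ≤ (N : ℝ) ^ (ε / 6) := by
    rw [← hu3] at hyu2
    exact hyu2.trans (Real.rpow_le_rpow_of_exponent_le hN1' (by linarith))
  have hy3 : 3 ≤ y := by
    have : (3 : ℝ) ≤ y := by nlinarith
    exact_mod_cast this
  have hu1 : u ≤ u ^ 2 := by nlinarith
  -- the parameter `z`
  obtain ⟨z, hz⟩ : ∃ z, z = rt 3 H := ⟨_, rfl⟩
  have hz3 : 3 ≤ z := by rw [hz]; exact hN2 H (by omega)
  have hzH : z ^ 3 ≤ H := by rw [hz]; exact rt_pow (by norm_num) H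
  have hlogz : Real.log H ≤ 6 * Real.log z := by
    have := hN1 H (by omega)
    rw [hz]
    push_cast at this
    linarith
  have hlogN : 0 < Real.log N := Real.log_pos (by exact_mod_cast (by omega : 1 < N))
  have hlogH : ε * Real.log N ≤ Real.log H := by
    have h1 := Real.log_le_log (Real.rpow_pos_of_pos hN0 ε) hNH
    rwa [Real.log_rpow hN0] at h1
  have hlogy : Real.log y ≤ 3 * c * Real.log N := by
    have h1 := Real.log_le_log (by exact_mod_cast (by omega : 0 < y)) (hyu2.trans (le_of_eq hu3.symm))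
    rwa [Real.log_rpow hN0] at h1
  have hlogy0 : 0 < Real.log y := Real.log_pos (by exact_mod_cast (by omega : 1 < y))
  have hlogz0 : 0 < Real.log z := Real.log_pos (by exact_mod_cast (by omega : 1 < z))
  have hyz : y ≤ z := by
    have h1 : Real.log y ≤ Real.log z := by nlinarith
    have h2 := (Real.log_le_log_iff (by exact_mod_cast (by omega : 0 < y))
      (by exact_mod_cast (by omega : 0 < z))).1 h1
    exact_mod_cast h2
  have hyH : y ≤ H := by
    have : z ≤ z ^ 3 := Nat.le_self_pow (by norm_num) z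
    omega
  -- the sum over the primes
  obtain ⟨M, hM⟩ : ∃ M, M = ∑ p ∈ (Icc 1 z).filter (fun p => p.Prime ∧ y < p), dd δ p / p := ⟨_, rfl⟩
  have hM1 : 88 / ε + 1 ≤ M := by
    have h1 := sum_recip C₁ hC₁ hy3 hyz
    have h2 : Real.log (ε / (18 * c)) ≤ Real.log (Real.log z) - Real.log (Real.log y) := by
      rw [← Real.log_div hlogz0.ne' hlogy0.ne']
      apply Real.log_le_log (by positivity)
      rw [div_le_div_iff₀ (by positivity) hlogy0]
      calc ε * Real.log y ≤ ε * (3 * c * Real.log N) := mul_le_mul_of_nonneg_left hlogy hε.le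
        _ = 3 * c * (ε * Real.log N) := by ring
        _ ≤ 3 * c * (6 * Real.log z) := mul_le_mul_of_nonneg_left (by linarith) (by positivity)
        _ = Real.log z * (18 * c) := by ring
    have h3 : Real.log (ε / (18 * c)) = (88 / ε + 1) / d + 2 * C₁ := by
      have h4 : ε / (18 * c) = Real.exp ((88 / ε + 1) / d + 2 * C₁) := by
        rw [hc, Real.exp_neg]
        have := Real.exp_pos ((88 / ε + 1) / d + 2 * C₁)
        field_simp
      rw [h4, Real.log_exp]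
    have h5 : (88 / ε + 1) / d ≤ ∑ p ∈ (Icc 1 z).filter (fun p => p.Prime ∧ y < p), (1 : ℝ) / p := by
      linarith
    have h6 : d * ∑ p ∈ (Icc 1 z).filter (fun p => p.Prime ∧ y < p), (1 : ℝ) / p ≤ M := by
      rw [hM, Finset.mul_sum]
      refine Finset.sum_le_sum fun p _ => ?_
      rw [mul_one_div]
      exact div_le_div_of_nonneg_right (hdd p) (Nat.cast_nonneg p)
    have h7 := mul_le_mul_of_nonneg_left h5 hd.le
    rw [mul_div_cancel₀ _ hd.ne'] at h7
    linarith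
  have hsm : 1 / (y : ℝ) + 22 / M ≤ ε / 2 := by
    have hM0 : 0 < M := lt_of_lt_of_le (by positivity) hM1
    have h1 : 22 / M ≤ ε / 4 := by
      rw [div_le_iff₀ hM0]
      have h2 : 88 / ε ≤ M := by linarith
      rw [div_le_iff₀ hε] at h2
      linarith
    have h2 : 1 / (y : ℝ) ≤ ε / 4 := by
      rw [div_le_iff₀ (by exact_mod_cast (by omega : 0 < y))]
      have h3 : 4 / ε ≤ y := by linarith
      rw [div_le_iff₀ hε] at h3
      linarith
    linarith
  -- the size of the forms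
  have haN : ∀ i, a i ≤ N := by
    intro i
    have h1 : (a i : ℝ) ≤ N := by
      refine (hab i).2.1.trans ?_
      calc (N : ℝ) ^ c ≤ (N : ℝ) ^ (1 : ℝ) := Real.rpow_le_rpow_of_exponent_le hN1' (by linarith)
        _ = N := Real.rpow_one _
    exact_mod_cast h1
  have hbN : ∀ i, b i ≤ N := by
    intro i
    have h1 : (b i : ℝ) ≤ N := by
      refine (hab i).2.2.trans ?_
      calc (N : ℝ) ^ c ≤ (N : ℝ) ^ (1 : ℝ) := Real.rpow_le_rpow_of_exponent_le hN1' (by linarith)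
        _ = N := Real.rpow_one _
    exact_mod_cast h1
  have hU : ∀ i, a i * H + (a i * x + b i) ≤ H ^ E := by
    intro i
    have h1 : a i * H + (a i * x + b i) ≤ N ^ 3 := by
      have h2 : a i * (x + H) ≤ N * N := Nat.mul_le_mul (haN i) hxH
      have h3 := hbN i
      have h4 : N * N + N ≤ N ^ 3 := by nlinarith
      rw [mul_add] at h2
      omega
    refine h1.trans ?_
    have h2 : ((N : ℝ) ^ ε) ^ E ≤ (H : ℝ) ^ E := pow_le_pow_left₀ (Real.rpow_nonneg hN0.le _) hNH E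
    rw [← Real.rpow_natCast, ← Real.rpow_mul hN0.le] at h2
    have h3 : (N : ℝ) ^ (3 : ℕ) ≤ (N : ℝ) ^ (ε * E) := by
      rw [← Real.rpow_natCast]
      exact Real.rpow_le_rpow_of_exponent_le hN1' (by exact_mod_cast hEε)
    exact_mod_cast h3.trans h2
  refine ⟨hU, fun y₁ hy₁ A hA => ?_⟩
  have hay : ∀ i, a i ≤ y := by
    intro i
    have h1 : (a i : ℝ) ≤ y := by
      have h2 := (hab i).2.1
      rw [← hu] at h2
      linarith
    exact_mod_cast h1
  have hprod : ∀ i j, ((a i * b j : ℕ) : ℝ) ≤ y := by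
    intro i j
    have h2 := (hab i).2.1
    have h3 := (hab j).2.2
    rw [← hu] at h2 h3
    push_cast
    have h4 : (a i : ℝ) * b j ≤ u * u := mul_le_mul h2 h3 (Nat.cast_nonneg _) (by linarith)
    nlinarith
  have hdet2 : ∀ i j, i ≠ j → (a i * (a j * x + b j : ℕ) : ℤ) - a j * (a i * x + b i : ℕ) ≠ 0 ∧
      |(a i * (a j * x + b j : ℕ) : ℤ) - a j * (a i * x + b i : ℕ)| ≤ y := by
    intro i j hij
    have e : (a i * (a j * x + b j : ℕ) : ℤ) - a j * (a i * x + b i : ℕ) =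
        ((a i * b j : ℕ) : ℤ) - ((a j * b i : ℕ) : ℤ) := by
      push_cast
      ring
    rw [e]
    constructor
    · have h1 := hdet i j hij
      intro h2
      apply h1
      have h3 : ((a i * b j : ℕ) : ℤ) = ((a j * b i : ℕ) : ℤ) := by linarith
      exact_mod_cast h3
    · have h1 : a i * b j ≤ y := by exact_mod_cast hprod i j
      have h2 : a j * b i ≤ y := by exact_mod_cast hprod j i
      have h3 : ((a i * b j : ℕ) : ℤ) ≤ y := by exact_mod_cast h1
      have h4 : ((a j * b i : ℕ) : ℤ) ≤ y := by exact_mod_cast h2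
      have h5 : (0 : ℤ) ≤ ((a i * b j : ℕ) : ℤ) := Int.natCast_nonneg _
      have h6 : (0 : ℤ) ≤ ((a j * b i : ℕ) : ℤ) := Int.natCast_nonneg _
      rw [abs_le]
      constructor <;> linarith
  have key := cube (w := w) δ h0 hd2 hk hw (fun i => (hab i).1) (b := fun i => a i * x + b i) hay hdet2
    (by omega) hyH (by omega) (by omega) hzH hU hM (by
      have : 0 < 88 / ε := by positivity
      linarith) hε hsm (y₁ := y₁) (by
      have h1 : (y₁ : ℝ) ≤ y := by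
        rw [← hu] at hy₁
        nlinarith
      exact_mod_cast h1) A hA
  refine key.trans ?_
  rw [← hκ, ← hu]
  have h1 : 2 * Real.exp (-(κ * y)) ≤ Real.exp 1 * Real.exp (-(κ * y)) := by
    apply mul_le_mul_of_nonneg_right _ (Real.exp_pos _).le
    have := Real.add_one_le_exp (1 : ℝ)
    linarith
  refine h1.trans ?_
  rw [← Real.exp_add]
  apply Real.exp_le_exp.2
  have h2 : κ * u ^ 2 ≤ κ * y := mul_le_mul_of_nonneg_left hyu hκ0.le
  have h3 : 4 ≤ κ * u := by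
    rw [div_le_iff₀ hκ0] at g5
    linarith
  nlinarith


section
variable {Ω : Type*} [MeasurableSpace Ω] {μ : Measure Ω} [IsProbabilityMeasure μ] {ξ : ℕ → Ω → ℤ}
  {δ : ℕ → ℝ}

theorem law (hind : iIndepFun ξ μ) (hm : ∀ p, Measurable (ξ p)) (h0 : ∀ p, 0 ≤ δ p) (h1 : ∀ p, δ p ≤ 1)
    (hμ : ∀ p, μ {ω | ξ p ω = -1} = ENNReal.ofReal (δ p)) (F T : Finset ℕ) (hT : T ⊆ F) :
    μ {ω | TF ξ F ω = T} = ENNReal.ofReal (∏ p ∈ F, if p ∈ T then δ p else 1 - δ p) := by
  have h2 : {ω | TF ξ F ω = T} = ⋂ p ∈ F, ξ p ⁻¹' (if p ∈ T then {-1} else {-1}ᶜ) := by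
    ext ω
    simp only [Set.mem_setOf_eq, Set.mem_iInter, Set.mem_preimage]
    constructor
    · intro h p hp
      by_cases hpT : p ∈ T
      · rw [if_pos hpT]
        rw [← h] at hpT
        unfold TF at hpT
        exact (mem_filter.1 hpT).2
      · rw [if_neg hpT]
        intro h3
        apply hpT
        rw [← h]
        unfold TF
        exact mem_filter.2 ⟨hp, h3⟩
    · intro h
      unfold TF
      ext p
      rw [mem_filter]
      constructor
      · rintro ⟨hp, h3⟩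
        by_contra hpT
        have := h p hp
        rw [if_neg hpT] at this
        exact this h3
      · intro hpT
        have := h p (hT hpT)
        rw [if_pos hpT] at this
        exact ⟨hT hpT, this⟩
  rw [h2, hind.measure_inter_preimage_eq_mul F (fun p _ => MeasurableSet.of_discrete),
    ENNReal.ofReal_prod_of_nonneg]
  · refine Finset.prod_congr rfl fun p _ => ?_
    have h3 : ξ p ⁻¹' {-1} = {ω | ξ p ω = -1} := rfl
    split_ifs with hpT
    · rw [h3, hμ]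
    · rw [Set.preimage_compl, prob_compl_eq_one_sub (hm p (MeasurableSet.singleton _)), h3, hμ,
        ENNReal.ofReal_sub _ (h0 p), ENNReal.ofReal_one]
  · intro p _
    split_ifs
    · exact h0 p
    · linarith [h1 p]

theorem prob_le (hind : iIndepFun ξ μ) (hm : ∀ p, Measurable (ξ p)) (h0 : ∀ p, 0 ≤ δ p)
    (h1 : ∀ p, δ p ≤ 1) (hμ : ∀ p, μ {ω | ξ p ω = -1} = ENNReal.ofReal (δ p)) (F : Finset ℕ)
    (Φ : Finset ℕ → Prop) [DecidablePred Φ] :
    μ {ω | Φ (TF ξ F ω)} ≤ ENNReal.ofReal (EE δ F (fun T => if Φ T then 1 else 0)) := by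
  have h2 : {ω | Φ (TF ξ F ω)} ⊆ ⋃ T ∈ F.powerset.filter Φ, {ω | TF ξ F ω = T} := by
    intro ω hω
    simp only [Set.mem_iUnion, Set.mem_setOf_eq, exists_prop, mem_filter, mem_powerset]
    exact ⟨TF ξ F ω, ⟨Finset.filter_subset _ _, hω⟩, rfl⟩
  refine (measure_mono h2).trans ((measure_biUnion_finset_le _ _).trans ?_)
  have h3 : ∀ T ∈ F.powerset.filter Φ, μ {ω | TF ξ F ω = T} =
      ENNReal.ofReal (∏ p ∈ F, if p ∈ T then δ p else 1 - δ p) := by
    intro T hT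
    rw [mem_filter, mem_powerset] at hT
    exact law hind hm h0 h1 hμ F T hT.1
  rw [Finset.sum_congr rfl h3, ← ENNReal.ofReal_sum_of_nonneg]
  · apply ENNReal.ofReal_le_ofReal
    unfold EE
    rw [Finset.sum_filter]
    refine Finset.sum_le_sum fun T _ => ?_
    by_cases hT : Φ T
    · simp [hT]
    · simp [hT]
  · intro T _
    refine Finset.prod_nonneg fun p _ => ?_
    split_ifs
    · exact h0 p
    · linarith [h1 p]

end

end Pool.Agent.U26Z.NA
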