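import Pool.Agent.U26Z.NA.Dyn

set_option autoImplicit false

/-!
# Independent random thresholds: all noise levels simultaneously
-/

namespace Pool.Agent.U26Z.NA

open Finset Filter Topology MeasureTheory ProbabilityTheory
open Pool.Agent.U26Z.NS (ci pow_ev)

variable {Ω : Type} [MeasurableSpace Ω] {μ : Measure Ω} [IsProbabilityMeasure μ] {U : ℕ → Ω → ℝ}

/-- the signs given by the thresholds -/
noncomputable def XT (U : ℕ → Ω → ℝ) (α : ℝ) (p : ℕ) (s : ℝ) (ω : Ω) : ℤ :=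
  if U p ω < α + (1 - 2 * α) * s then -1 else 1

theorem XT_sgn (U : ℕ → Ω → ℝ) (α : ℝ) (p : ℕ) (s : ℝ) (ω : Ω) : XT U α p s ω = 1 ∨ XT U α p s ω = -1 := by
  unfold XT
  split_ifs <;> simp

omit [IsProbabilityMeasure μ] in
theorem unif_Iio (hm : ∀ p, Measurable (U p)) (hU : ∀ p, μ.map (U p) = (volume : Measure ℝ).restrict (Set.Icc 0 1))
    (p : ℕ) {t : ℝ} (h1 : t ≤ 1) : μ {ω | U p ω < t} = ENNReal.ofReal t := by
  have h2 : {ω | U p ω < t} = U p ⁻¹' (Set.Iio t) := rfl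
  rw [h2, ← Measure.map_apply (hm p) measurableSet_Iio, hU p, Measure.restrict_apply measurableSet_Iio]
  have h3 : Set.Iio t ∩ Set.Icc 0 1 = Set.Ico 0 t := by
    ext x
    simp only [Set.mem_inter_iff, Set.mem_Iio, Set.mem_Icc, Set.mem_Ico]
    constructor
    · rintro ⟨h3, h4, h5⟩; exact ⟨h4, h3⟩
    · rintro ⟨h3, h4⟩; exact ⟨h4, h3, by linarith⟩
  rw [h3, Real.volume_Ico, sub_zero]

omit [IsProbabilityMeasure μ] in
theorem unif_Ico (hm : ∀ p, Measurable (U p)) (hU : ∀ p, μ.map (U p) = (volume : Measure ℝ).restrict (Set.Icc 0 1))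
    (p : ℕ) (s t : ℝ) : μ (U p ⁻¹' (Set.Ico s t)) ≤ ENNReal.ofReal (t - s) := by
  rw [← Measure.map_apply (hm p) measurableSet_Ico, hU p]
  refine (Measure.restrict_apply_le _ _).trans ?_
  rw [Real.volume_Ico]

/-- the thresholds give a noise dynamics -/
theorem thr_dyn (k : ℕ) (hk : 0 < k) {α ε : ℝ} (hα : 0 < α) (hα1 : α ≤ 1 / 4) (hε : 0 < ε) (hε1 : ε ≤ 1) :
    ∃ c : ℝ, 0 < c ∧ ∀ {Ω : Type} [MeasurableSpace Ω] {μ : Measure Ω} [IsProbabilityMeasure μ]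
    {U : ℕ → Ω → ℝ}, iIndepFun U μ → (∀ p, Measurable (U p)) →
    (∀ p, μ.map (U p) = (volume : Measure ℝ).restrict (Set.Icc 0 1)) →
    ∀ᵐ ω ∂μ, ∀ᶠ N : ℕ in atTop, Good k ε c (XT U α) ω N := by
  obtain ⟨c, hc, h⟩ := as_dyn k hk hα hε hε1
  refine ⟨c, hc, fun {Ω} _ {μ} _ {U} hind hm hU => ?_⟩
  refine h (C := 1) ?_ ?_ (XT_sgn U α) ?_ ?_
  · intro s
    have h2 : (fun p => XT U α p s) = fun p => (fun u : ℝ => if u < α + (1 - 2 * α) * s then (-1 : ℤ) else 1) ∘ U p := by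
      funext p ω
      rfl
    rw [h2]
    exact hind.comp _ (fun p => Measurable.ite measurableSet_Iio measurable_const measurable_const)
  · intro p s
    have h2 : XT U α p s = (fun u : ℝ => if u < α + (1 - 2 * α) * s then (-1 : ℤ) else 1) ∘ U p := rfl
    rw [h2]
    exact (Measurable.ite measurableSet_Iio measurable_const measurable_const).comp (hm p)
  · intro p s hs0 hs1
    have h2 : {ω | XT U α p s ω = -1} = {ω | U p ω < α + (1 - 2 * α) * s} := by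
      ext ω
      simp only [Set.mem_setOf_eq]
      unfold XT
      split_ifs with h3
      · simp [h3]
      · simp [h3]
    have h3 : α ≤ α + (1 - 2 * α) * s := by nlinarith
    have h4 : α + (1 - 2 * α) * s ≤ 1 - α := by nlinarith
    rw [h2, unif_Iio hm hU p (by linarith), ENNReal.toReal_ofReal (by linarith)]
    exact ⟨h3, h4⟩
  · intro p q hpq s t hs0 hst ht1
    have hsub : ∀ r, jmp (XT U α) r s t ⊆ U r ⁻¹' (Set.Ico (α + (1 - 2 * α) * s) (α + (1 - 2 * α) * t)) := by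
      intro r ω hω
      obtain ⟨u, ⟨hu1, hu2⟩, hne⟩ := hω
      simp only [Set.mem_preimage, Set.mem_Ico]
      have h3 : α + (1 - 2 * α) * s ≤ α + (1 - 2 * α) * u := by nlinarith
      have h4 : α + (1 - 2 * α) * u ≤ α + (1 - 2 * α) * t := by nlinarith
      unfold XT at hne
      constructor
      · by_contra h5
        push Not at h5
        rw [if_pos h5, if_pos (by linarith)] at hne
        exact hne rfl
      · by_contra h5
        push Not at h5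
        rw [if_neg (by linarith), if_neg (by linarith)] at hne
        exact hne rfl
    refine (measure_mono (Set.inter_subset_inter (hsub p) (hsub q))).trans ?_
    rw [(hind.indepFun hpq).measure_inter_preimage_eq_mul _ _ measurableSet_Ico measurableSet_Ico]
    have h3 := unif_Ico hm hU p (α + (1 - 2 * α) * s) (α + (1 - 2 * α) * t)
    have h4 := unif_Ico hm hU q (α + (1 - 2 * α) * s) (α + (1 - 2 * α) * t)
    refine (mul_le_mul' h3 h4).trans ?_
    rw [← ENNReal.ofReal_mul (by nlinarith)]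
    apply ENNReal.ofReal_le_ofReal
    have e : α + (1 - 2 * α) * t - (α + (1 - 2 * α) * s) = (1 - 2 * α) * (t - s) := by ring
    rw [e]
    have h5 : (1 - 2 * α) * (t - s) ≤ t - s := by nlinarith
    have h6 : 0 ≤ (1 - 2 * α) * (t - s) := by nlinarith
    nlinarith

/-- the robust form, in terms of the interval `(x, x + H]` -/
def Rob (k : ℕ) (ε c : ℝ) (U : ℕ → Ω → ℝ) (ω : Ω) (x : ℕ) : Prop :=
  ∀ t : ℝ, ε ≤ t → t ≤ 1 - ε → ∀ g : ℕ → ℤ, CM g →
  (∀ p : ℕ, p.Prime → (x : ℝ) ^ c < p → g p = if U p ω < t then 1 else -1) →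
  ∀ H : ℕ, (x : ℝ) ^ ε ≤ H → H ≤ x → ∀ a b : Fin k → ℕ,
    (∀ i, 1 ≤ a i ∧ (a i : ℝ) ≤ (x : ℝ) ^ c ∧ (b i : ℝ) ≤ (x : ℝ) ^ c) →
    (∀ i j, i ≠ j → a i * b j ≠ a j * b i) →
    |ci (fun _ => 1) g a b x H| ≤ ε * H

theorem rob (k : ℕ) (hk : 0 < k) {ε : ℝ} (hε : 0 < ε) (hε1 : ε ≤ 1) :
    ∃ c : ℝ, 0 < c ∧ ∀ {Ω : Type} [MeasurableSpace Ω] {μ : Measure Ω} [IsProbabilityMeasure μ]
    {U : ℕ → Ω → ℝ}, iIndepFun U μ → (∀ p, Measurable (U p)) →
    (∀ p, μ.map (U p) = (volume : Measure ℝ).restrict (Set.Icc 0 1)) →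
    ∀ᵐ ω ∂μ, ∀ᶠ x : ℕ in atTop, Rob k ε c U ω x := by
  obtain ⟨α, hα⟩ : ∃ α, α = min ε (1 / 4) := ⟨_, rfl⟩
  have hα0 : 0 < α := by rw [hα]; exact lt_min hε (by norm_num)
  have hα1 : α ≤ 1 / 4 := by rw [hα]; exact min_le_right _ _
  have hαε : α ≤ ε := by rw [hα]; exact min_le_left _ _
  obtain ⟨c, hc, h⟩ := thr_dyn k hk hα0 hα1 (show 0 < ε / 2 by positivity) (by linarith)
  refine ⟨c, hc, fun {Ω} _ {μ} _ {U} hind hm hU => ?_⟩
  filter_upwards [h hind hm hU] with ω hω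
  have h3 : Tendsto (fun x : ℕ => 2 * x) atTop atTop := tendsto_id.const_mul_atTop' (by norm_num)
  filter_upwards [h3.eventually hω, eventually_ge_atTop 2] with x h4 hx2
  intro t ht1 ht2 g hg hgp H hxH hHx a b hab hdet
  have hx0 : (0 : ℝ) < x := by exact_mod_cast (by omega : 0 < x)
  have h9 : ((2 * x : ℕ) : ℝ) ^ (ε / 2) ≤ H := by
    refine le_trans ?_ hxH
    have h10 : ((2 * x : ℕ) : ℝ) ≤ (x : ℝ) ^ (2 : ℝ) := by
      rw [show (2 : ℝ) = ((2 : ℕ) : ℝ) by norm_num, Real.rpow_natCast]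
      have : 2 * x ≤ x ^ 2 := by nlinarith
      exact_mod_cast this
    have h11 := Real.rpow_le_rpow (by positivity) h10 (show 0 ≤ ε / 2 by positivity)
    rw [← Real.rpow_mul hx0.le] at h11
    refine h11.trans (le_of_eq ?_)
    congr 1
    ring
  have hcx : (x : ℝ) ^ c ≤ ((2 * x : ℕ) : ℝ) ^ c := by
    apply Real.rpow_le_rpow hx0.le _ hc.le
    push_cast
    linarith
  have h12 : (0 : ℝ) < 1 - 2 * α := by linarith
  have hs0 : 0 ≤ (t - α) / (1 - 2 * α) := div_nonneg (by linarith) h12.le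
  have hs1 : (t - α) / (1 - 2 * α) ≤ 1 := by
    rw [div_le_one h12]
    linarith
  have e1 : α + (1 - 2 * α) * ((t - α) / (1 - 2 * α)) = t := by
    rw [mul_div_cancel₀ _ h12.ne']
    ring
  have h13 := h4 ((t - α) / (1 - 2 * α)) hs0 hs1 g hg (by
    intro p hp hpx
    rw [hgp p hp (lt_of_le_of_lt hcx hpx)]
    unfold XT
    rw [e1]
    split_ifs <;> norm_num) x H (by omega) h9 a b
    (fun i => ⟨(hab i).1, (hab i).2.1.trans hcx, (hab i).2.2.trans hcx⟩) hdet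
  refine h13.trans (mul_le_mul_of_nonneg_right (by linarith) (Nat.cast_nonneg H))

/-- Chowla's conjecture in all short intervals -/
def SC (g : ℕ → ℤ) : Prop :=
  ∀ k : ℕ, 1 ≤ k → ∀ ε : ℝ, 0 < ε → ∀ a b : Fin k → ℕ, (∀ i, 1 ≤ a i) → (∀ i j, i ≠ j → a i * b j ≠ a j * b i) →
    ∀ᶠ x : ℕ in atTop, ∀ H : ℕ, (x : ℝ) ^ ε ≤ H → H ≤ x → |ci (fun _ => 1) g a b x H| ≤ ε * H

theorem all_levels (hind : iIndepFun U μ) (hm : ∀ p, Measurable (U p))
    (hU : ∀ p, μ.map (U p) = (volume : Measure ℝ).restrict (Set.Icc 0 1)) :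
    ∀ᵐ ω ∂μ, ∀ t : ℝ, 0 < t → t < 1 → ∀ g : ℕ → ℤ, CM g →
      (∀ᶠ p : ℕ in atTop, p.Prime → g p = if U p ω < t then 1 else -1) → SC g := by
  have h1 : ∀ᵐ ω ∂μ, ∀ k : ℕ, ∀ m : ℕ, 1 ≤ k → ∃ c : ℝ, 0 < c ∧
      ∀ᶠ x : ℕ in atTop, Rob k (1 / ((m : ℝ) + 1)) c U ω x := by
    rw [ae_all_iff]
    intro k
    rw [ae_all_iff]
    intro m
    by_cases hk : 1 ≤ k
    · obtain ⟨c, hc, h⟩ := rob k hk (show 0 < 1 / ((m : ℝ) + 1) by positivity) (by
        rw [div_le_one (by positivity)]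
        have : (0 : ℝ) ≤ m := Nat.cast_nonneg m
        linarith)
      filter_upwards [h hind hm hU] with ω hω _
      exact ⟨c, hc, hω⟩
    · exact Eventually.of_forall fun ω h => absurd h hk
  filter_upwards [h1] with ω hω t ht0 ht1 g hg hgp k hk ε hε a b ha hdet
  obtain ⟨m, hm'⟩ := exists_nat_one_div_lt (show 0 < min ε (min t (1 - t)) from
    lt_min hε (lt_min ht0 (by linarith)))
  have hm1 : 1 / ((m : ℝ) + 1) < ε := hm'.trans_le (min_le_left _ _)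
  have hm2 : 1 / ((m : ℝ) + 1) < t := hm'.trans_le ((min_le_right _ _).trans (min_le_left _ _))
  have hm3 : 1 / ((m : ℝ) + 1) < 1 - t := hm'.trans_le ((min_le_right _ _).trans (min_le_right _ _))
  obtain ⟨c, hc, h2⟩ := hω k m hk
  obtain ⟨P, hP⟩ := eventually_atTop.1 hgp
  have h5 : ∀ i, ∀ᶠ x : ℕ in atTop, (a i : ℝ) ≤ (x : ℝ) ^ c ∧ (b i : ℝ) ≤ (x : ℝ) ^ c := by
    intro i
    filter_upwards [pow_ev hc (a i : ℝ), pow_ev hc (b i : ℝ)] with x h6 h7
    exact ⟨h6, h7⟩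
  filter_upwards [h2, eventually_all.2 h5, pow_ev hc (P : ℝ), eventually_ge_atTop 1] with x h6 h7 h8 h9 H hxH hHx
  have hx1 : (1 : ℝ) ≤ x := by exact_mod_cast h9
  have h10 : (x : ℝ) ^ (1 / ((m : ℝ) + 1)) ≤ H :=
    (Real.rpow_le_rpow_of_exponent_le hx1 hm1.le).trans hxH
  have h11 := h6 t hm2.le (by linarith) g hg (by
    intro p hp hpx
    apply hP p _ hp
    have : (P : ℝ) < p := lt_of_le_of_lt h8 hpx
    exact_mod_cast this.le) H h10 hHx a b (fun i => ⟨ha i, (h7 i).1, (h7 i).2⟩) hdet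
  exact h11.trans (mul_le_mul_of_nonneg_right hm1.le (Nat.cast_nonneg H))

end Pool.Agent.U26Z.NA
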